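import Mathlib

/-!
# Frobenius symbols and partitions: statements for the tail theorem (MP_c916f9_co)

Project TM+: `F(n, D+1) ≤ F(n, D)` for all even `n` and all `D ≥ C √n log n`.
-/

namespace Pool.Agent.H95.FX

/-- a symbol: strictly decreasing in both coordinates -/
def SD (r : List (ℕ × ℕ)) : Prop := r.Pairwise (fun x y => y.1 < x.1 ∧ y.2 < x.2)

/-- number of cells of the diagram of a symbol -/
def mass (r : List (ℕ × ℕ)) : ℕ := (r.map (fun x => x.1 + x.2 + 1)).sum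

/-- rows of the diagram with Frobenius symbol `r` -/
def fro : List (ℕ × ℕ) → List ℕ
  | [] => []
  | (x :: r) => (x.1 + 1) :: ((fro r).map (· + 1) ++ List.replicate (x.2 - (fro r).length) 1)

/-- symbols of mass `N` with entries `< L` -/
def symSet (L N : ℕ) : Set (List (ℕ × ℕ)) :=
  {r | SD r ∧ mass r = N ∧ ∀ x ∈ r, x.1 < L ∧ x.2 < L}

/-- the dominated ones -/
def domSet (L N : ℕ) : Set (List (ℕ × ℕ)) :=
  {r | r ∈ symSet L N ∧ ∀ x ∈ r, x.1 ≤ x.2}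

/-- the dominated ones of length at least two -/
def domSet2 (L N : ℕ) : Set (List (ℕ × ℕ)) :=
  {r | r ∈ domSet L N ∧ 2 ≤ r.length}

/-- number of partitions -/
noncomputable def P (n : ℕ) : ℕ := Nat.card (Nat.Partition n)

/-- `s` is the multiset of degrees (zeros allowed) of a finite simple graph. -/
def GrM (s : Multiset ℕ) : Prop :=
  ∃ (V : Type) (_ : Fintype V) (G : SimpleGraph V),
    (Finset.univ : Finset V).val.map (fun v => (G.neighborSet v).ncard) = s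

/-! ## T1: rotation lemma -/

def SRot : Prop := ∀ L N : ℕ, (symSet L N).ncard ≤ (2 * L + 1) * (domSet L N).ncard

/-! ## T2: growth of the partition function -/

def SMono : Prop := ∀ m n : ℕ, m ≤ n → P m ≤ P n

def SRatio : Prop := ∀ J N : ℕ, J ≤ N → J * (J + 1) * P (N - J) ≤ 2 * N * P N

def SPow : Prop := ∀ t J N : ℕ, 1 ≤ J → t * J ≤ N → 4 * N ≤ J * (J + 1) →
  2 ^ t * P (N - t * J) ≤ P N

/-! ## T3: Frobenius symbols -/

def SLen : Prop := ∀ (x : ℕ × ℕ) (r : List (ℕ × ℕ)), SD (x :: r) →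
  (fro (x :: r)).length = x.2 + 1

def SSum : Prop := ∀ r : List (ℕ × ℕ), SD r → (fro r).sum = mass r

def SSort : Prop := ∀ r : List (ℕ × ℕ), SD r → (fro r).Pairwise (· ≥ ·)

def SPos : Prop := ∀ r : List (ℕ × ℕ), ∀ y ∈ fro r, 1 ≤ y

def SInj : Prop := ∀ r r' : List (ℕ × ℕ), SD r → SD r' → fro r = fro r' → r = r'

def SFro : Prop := ∀ l : List ℕ, l.Pairwise (· ≥ ·) → (∀ x ∈ l, 1 ≤ x) →
  ∃ r : List (ℕ × ℕ), SD r ∧ fro r = l

def SFin : Prop := ∀ L N : ℕ, (symSet L N).Finite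

/-- few symbols of length at most one -/
def SShort : Prop := ∀ L N : ℕ,
  (domSet L N).ncard ≤ (domSet2 L N).ncard + (N + 1)

/-- all partitions, up to those with a part `> L` or with more than `L` parts -/
def SCov : Prop := ∀ L N : ℕ, L + 1 ≤ N → P N ≤ (symSet L N).ncard + 2 * N * P (N - L - 1)

/-! ## T4: graphs -/

def SGr : Prop := ∀ r : List (ℕ × ℕ), SD r → (∀ x ∈ r, x.1 + 1 ≤ x.2) → Even (mass r) →
  GrM (fro r : Multiset ℕ)

def SUniv : Prop := ∀ s : Multiset ℕ, GrM s → GrM (Multiset.card s ::ₘ s.map (· + 1))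

def SIso : Prop := ∀ s : Multiset ℕ, GrM s → GrM (0 ::ₘ s)

/-! ## T5: the exceptional partitions are few -/

def excSet (n D : ℕ) : Set (Nat.Partition n) :=
  {p | ∃ ρ : Multiset ℕ, p.parts = (D + 1) ::ₘ ρ ∧ (∀ x ∈ ρ, x ≤ D + 1) ∧
    D + 1 ≤ Multiset.card ρ ∧ (ρ.count 1 ≤ 3 ∨ (∃ x ∈ ρ, D ≤ x) ∨ ∀ x ∈ ρ, x = 1)}

def SExc : Prop := ∀ n D : ℕ, 1 ≤ D → 3 * D < n → (excSet n D).ncard ≤ 13 * n * P (n - 3 * D)

/-! ## T6: many partitions outside the image -/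

def mSet (n D : ℕ) : Set (Nat.Partition n) :=
  {p | ∃ (y : ℕ) (S : Multiset ℕ), p.parts = D ::ₘ y ::ₘ y ::ₘ S ∧ y ≤ D ∧ (∀ x ∈ S, x ≤ y) ∧
    Multiset.card S + 2 = D ∧ GrM p.parts}

def SBuild : Prop := ∀ n D L N : ℕ, 1 ≤ L → 8 * L ≤ D → Even n → N + 2 * D + 5 * L = n →
  (domSet2 L N).ncard ≤ L * (mSet n D).ncard

/-! ## T7: the numerical inequality -/

def SNum : Prop := ∀ n D : ℕ, 2 ≤ n → 3 * D < n → 100 * Real.sqrt n * Real.log n ≤ D →
  1 ≤ D / 8 ∧ ∀ L N : ℕ, L = D / 8 → N + 2 * D + 5 * L = n →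
    L + 1 ≤ N ∧
    2 * N * P (N - L - 1) + (2 * L + 1) * (N + 1) + (2 * L + 1) * L * (13 * n * P (n - 3 * D)) ≤
      P N

/-! ## T8: conclusion of the counting -/

def SCount : Prop := ∀ n D : ℕ, Even n → 3 * D < n → 100 * Real.sqrt n * Real.log n ≤ D →
  (excSet n D).ncard ≤ (mSet n D).ncard

theorem count_of (h1 : SRot) (h2 : SCov) (h3 : SShort) (h4 : SExc) (h5 : SBuild) (h6 : SNum) :
    SCount := by
  intro n D hn h3D hD
  have hn2 : 2 ≤ n := by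
    obtain ⟨k, hk⟩ := hn
    omega
  obtain ⟨hL1, hN⟩ := h6 n D hn2 h3D hD
  have hL : 8 * (D / 8) ≤ D := Nat.mul_div_le D 8
  obtain ⟨N, hNn⟩ : ∃ N, N + 2 * D + 5 * (D / 8) = n := ⟨n - 2 * D - 5 * (D / 8), by omega⟩
  obtain ⟨hLN, hmain⟩ := hN (D / 8) N rfl hNn
  have hD1 : 1 ≤ D := by omega
  have e1 := h1 (D / 8) N
  have e2 := h2 (D / 8) N hLN
  have e3 := h3 (D / 8) N
  have e4 := h4 n D hD1 h3D
  have e5 := h5 n D (D / 8) N hL1 hL hn hNn
  generalize D / 8 = L at *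
  refine e4.trans ?_
  have e6 : (2 * L + 1) * (domSet L N).ncard ≤
      (2 * L + 1) * (L * (mSet n D).ncard + (N + 1)) :=
    Nat.mul_le_mul_left _ (e3.trans (Nat.add_le_add_right e5 _))
  have e7 : (2 * L + 1) * L * (13 * n * P (n - 3 * D)) ≤ (2 * L + 1) * L * (mSet n D).ncard := by
    nlinarith [e1, e2, e6, hmain]
  exact Nat.le_of_mul_le_mul_left e7 (by positivity)

end Pool.Agent.H95.FX
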