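import Pool.Agent.H95.FX.Stm

/-!
# Abstract assembly of the tail theorem
-/

namespace Pool.Agent.H95.FX

open Multiset

/-- partitions of `n` with largest part `D` and the property `FC` -/
def maxSet (FC : Multiset ℕ → Prop) (n D : ℕ) : Set (Nat.Partition n) :=
  {p | FC p.parts ∧ D ∈ p.parts ∧ ∀ x ∈ p.parts, x ≤ D}

/-- the shape of the partitions to which the map applies -/
def Shape (D : ℕ) (s : Multiset ℕ) (x : ℕ) (S : Multiset ℕ) : Prop :=
  s = (D + 1) ::ₘ x ::ₘ 1 ::ₘ 1 ::ₘ 1 ::ₘ 1 ::ₘ S ∧ 2 ≤ x ∧ x < D ∧ ∀ y ∈ S, y ≤ x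

theorem parts_pos {n : ℕ} (p : Nat.Partition n) : ∀ x ∈ p.parts, 0 < x := fun _ h =>
  p.parts_pos h

/-- a member of `maxSet (D+1)` which is not exceptional has the shape above -/
theorem shape_of {FC : Multiset ℕ → Prop} {n D : ℕ} {p : Nat.Partition n}
    (hcard : D + 2 ≤ Multiset.card p.parts)
    (hp : D + 1 ∈ p.parts) (hmax : ∀ x ∈ p.parts, x ≤ D + 1) (hex : p ∉ excSet n D) :
    ∃ x S, Shape D p.parts x S := by
  classical
  obtain ⟨ρ, hρ⟩ := Multiset.exists_cons_of_mem hp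
  have h1 : ∀ x ∈ ρ, x ≤ D + 1 := fun x hx => hmax x (by rw [hρ]; exact mem_cons_of_mem hx)
  have h2 : D + 1 ≤ card ρ := by
    have := hcard
    rw [hρ, card_cons] at this
    omega
  have h3 : ¬ (ρ.count 1 ≤ 3 ∨ (∃ x ∈ ρ, D ≤ x) ∨ ∀ x ∈ ρ, x = 1) := by
    intro h
    exact hex ⟨ρ, hρ, h1, h2, h⟩
  push Not at h3
  obtain ⟨h4, h5, z, hz, hz1⟩ := h3
  have hpos : ∀ x ∈ ρ, 0 < x := fun x hx =>
    p.parts_pos (by rw [hρ]; exact mem_cons_of_mem hx)
  have hne : ρ.toFinset.Nonempty := ⟨z, by simpa using hz⟩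
  set x := ρ.toFinset.max' hne with hx
  have hxm : x ∈ ρ := by
    have := Finset.max'_mem ρ.toFinset hne
    simpa using this
  have hxmax : ∀ y ∈ ρ, y ≤ x := fun y hy => Finset.le_max' _ _ (by simpa using hy)
  have hx2 : 2 ≤ x := by
    have := hxmax z hz
    have := hpos z hz
    omega
  obtain ⟨ρ', hρ'⟩ := Multiset.exists_cons_of_mem hxm
  have hc : 4 ≤ ρ'.count 1 := by
    have h6 : ρ.count 1 = ρ'.count 1 := by
      rw [hρ', count_cons_of_ne (by omega)]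
    omega
  have hle : Multiset.replicate 4 1 ≤ ρ' := Multiset.le_count_iff_replicate_le.mp hc
  obtain ⟨S, hS⟩ := Multiset.le_iff_exists_add.mp hle
  refine ⟨x, S, ?_, hx2, h5 x hxm, ?_⟩
  · rw [hρ, hρ', hS]
    have e : replicate 4 1 = (1 ::ₘ 1 ::ₘ 1 ::ₘ 1 ::ₘ 0 : Multiset ℕ) := by decide
    rw [e]
    simp only [cons_add, zero_add]
  · intro y hy
    apply hxmax
    rw [hρ', hS]
    exact mem_cons_of_mem (mem_add.mpr (Or.inr hy))

/-- the image partition -/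
theorem image_sum {n D : ℕ} {p : Nat.Partition n} {x : ℕ} {S : Multiset ℕ}
    (h : Shape D p.parts x S) :
    (D ::ₘ (x + 1) ::ₘ 2 ::ₘ 1 ::ₘ 1 ::ₘ S).sum = n := by
  have h1 := p.parts_sum
  rw [h.1] at h1
  simp only [sum_cons] at h1 ⊢
  omega

theorem image_pos {n D : ℕ} {p : Nat.Partition n} {x : ℕ} {S : Multiset ℕ}
    (h : Shape D p.parts x S) :
    ∀ {i : ℕ}, i ∈ (D ::ₘ (x + 1) ::ₘ 2 ::ₘ 1 ::ₘ 1 ::ₘ S) → 0 < i := by
  intro i hi
  obtain ⟨h1, h2, h3, h4⟩ := h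
  simp only [mem_cons] at hi
  rcases hi with rfl | rfl | rfl | rfl | rfl | hi
  · omega
  · omega
  · omega
  · omega
  · omega
  · exact p.parts_pos (by rw [h1]; simp [hi])

open Classical in
/-- the map `B` -/
noncomputable def mapB (n D : ℕ) (p : Nat.Partition n) : Nat.Partition n :=
  if h : ∃ y : ℕ × Multiset ℕ, Shape D p.parts y.1 y.2 then
    ⟨D ::ₘ (h.choose.1 + 1) ::ₘ 2 ::ₘ 1 ::ₘ 1 ::ₘ h.choose.2, image_pos h.choose_spec,
      image_sum h.choose_spec⟩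
  else p

theorem mapB_spec {n D : ℕ} {p : Nat.Partition n} {x : ℕ} {S : Multiset ℕ}
    (h : Shape D p.parts x S) :
    ∃ x S, Shape D p.parts x S ∧ (mapB n D p).parts = D ::ₘ (x + 1) ::ₘ 2 ::ₘ 1 ::ₘ 1 ::ₘ S := by
  have h' : ∃ y : ℕ × Multiset ℕ, Shape D p.parts y.1 y.2 := ⟨(x, S), h⟩
  refine ⟨h'.choose.1, h'.choose.2, h'.choose_spec, ?_⟩
  rw [mapB, dif_pos h']

theorem shape_unique {D : ℕ} {x y : ℕ} {S T : Multiset ℕ}
    (hx : 2 ≤ x) (hxD : x < D) (hS : ∀ z ∈ S, z ≤ x) (hy : 2 ≤ y) (hyD : y < D)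
    (hT : ∀ z ∈ T, z ≤ y)
    (h : D ::ₘ (x + 1) ::ₘ 2 ::ₘ 1 ::ₘ 1 ::ₘ S = D ::ₘ (y + 1) ::ₘ 2 ::ₘ 1 ::ₘ 1 ::ₘ T) :
    x = y ∧ S = T := by
  rw [cons_inj_right] at h
  have hxy : x = y := by
    have h1 : x + 1 ∈ ((y + 1) ::ₘ 2 ::ₘ 1 ::ₘ 1 ::ₘ T) := by rw [← h]; simp
    have h2 : y + 1 ∈ ((x + 1) ::ₘ 2 ::ₘ 1 ::ₘ 1 ::ₘ S) := by rw [h]; simp
    simp only [mem_cons] at h1 h2
    have h3 : x + 1 ≤ y + 1 := by
      rcases h1 with h1 | h1 | h1 | h1 | h1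
      · omega
      · omega
      · omega
      · omega
      · have := hT _ h1; omega
    have h4 : y + 1 ≤ x + 1 := by
      rcases h2 with h1 | h1 | h1 | h1 | h1
      · omega
      · omega
      · omega
      · omega
      · have := hS _ h1; omega
    omega
  subst hxy
  refine ⟨rfl, ?_⟩
  rwa [cons_inj_right, cons_inj_right, cons_inj_right, cons_inj_right] at h

/-- an image is not in `mSet` -/
theorem image_not_mem {D : ℕ} {x y : ℕ} {S T : Multiset ℕ}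
    (hx : 2 ≤ x) (hS : ∀ z ∈ S, z ≤ x) (hT : ∀ z ∈ T, z ≤ y)
    (h : D ::ₘ (x + 1) ::ₘ 2 ::ₘ 1 ::ₘ 1 ::ₘ S = D ::ₘ y ::ₘ y ::ₘ T) : False := by
  classical
  rw [cons_inj_right] at h
  have h1 : y ∈ ((x + 1) ::ₘ 2 ::ₘ 1 ::ₘ 1 ::ₘ S) := by rw [h]; simp
  have h2 : x + 1 ∈ (y ::ₘ y ::ₘ T) := by rw [← h]; simp
  simp only [mem_cons] at h1 h2
  have h3 : y ≤ x + 1 := by
    rcases h1 with h1 | h1 | h1 | h1 | h1
    · omega
    · omega
    · omega
    · omega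
    · have := hS _ h1; omega
  have h4 : x + 1 ≤ y := by
    rcases h2 with h2 | h2 | h2
    · omega
    · omega
    · exact hT _ h2
  have h5 : y = x + 1 := by omega
  subst h5
  rw [cons_inj_right] at h
  have h6 : x + 1 ∈ (2 ::ₘ 1 ::ₘ 1 ::ₘ S) := by rw [h]; simp
  simp only [mem_cons] at h6
  rcases h6 with h6 | h6 | h6 | h6
  · omega
  · omega
  · omega
  · have := hS _ h6; omega

/-- Abstract form of the tail theorem. -/
theorem tail_of (FC : Multiset ℕ → Prop) {n D : ℕ} (hD : 3 ≤ D)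
    (h1 : ∀ p : Nat.Partition n, FC p.parts → D + 1 ∈ p.parts → D + 2 ≤ Multiset.card p.parts)
    (h2 : ∀ (x : ℕ) (S : Multiset ℕ), 2 ≤ x → x < D → (∀ y ∈ S, y ≤ x) → (∀ y ∈ S, 0 < y) →
      FC ((D + 1) ::ₘ x ::ₘ 1 ::ₘ 1 ::ₘ 1 ::ₘ 1 ::ₘ S) →
      FC (D ::ₘ (x + 1) ::ₘ 2 ::ₘ 1 ::ₘ 1 ::ₘ S))
    (h3 : ∀ p ∈ mSet n D, FC p.parts)
    (h4 : (excSet n D).ncard ≤ (mSet n D).ncard) :
    (maxSet FC n (D + 1)).ncard ≤ (maxSet FC n D).ncard := by
  classical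
  set A := maxSet FC n (D + 1) with hA
  have hfin : ∀ s : Set (Nat.Partition n), s.Finite := fun s => s.toFinite
  have hsplit : A.ncard ≤ (excSet n D).ncard + (A \ excSet n D).ncard := by
    calc A.ncard ≤ (excSet n D ∪ (A \ excSet n D)).ncard := by
          apply Set.ncard_le_ncard _ (hfin _)
          intro p hp
          by_cases h : p ∈ excSet n D
          · exact Or.inl h
          · exact Or.inr ⟨hp, h⟩
      _ ≤ _ := Set.ncard_union_le _ _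
  have hsh : ∀ p ∈ A \ excSet n D, ∃ x S, Shape D p.parts x S := by
    rintro p ⟨⟨hp1, hp2, hp3⟩, hp4⟩
    exact shape_of (FC := FC) (h1 p hp1 hp2) hp2 hp3 hp4
  have hsub : mSet n D ∪ (mapB n D '' (A \ excSet n D)) ⊆ maxSet FC n D := by
    rintro p (hp | ⟨q, hq, rfl⟩)
    · refine ⟨h3 p hp, ?_, ?_⟩
      · obtain ⟨y, S, hy, -⟩ := hp
        rw [hy]; simp
      · obtain ⟨y, S, hy, hyD, hS, -⟩ := hp
        intro x hx
        rw [hy] at hx
        simp only [mem_cons] at hx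
        rcases hx with rfl | rfl | rfl | hx
        · exact le_rfl
        · exact hyD
        · exact hyD
        · exact (hS x hx).trans hyD
    · obtain ⟨x₀, S₀, hs₀⟩ := hsh q hq
      obtain ⟨x, S, hs, hpq⟩ := mapB_spec hs₀
      refine ⟨?_, ?_, ?_⟩
      · rw [hpq]
        apply h2 x S hs.2.1 hs.2.2.1 hs.2.2.2
        · intro y hy
          exact q.parts_pos (by rw [hs.1]; simp [hy])
        · rw [← hs.1]
          exact hq.1.1
      · rw [hpq]; simp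
      · intro y hy
        rw [hpq] at hy
        simp only [mem_cons] at hy
        have := hs.2.2.1
        rcases hy with rfl | rfl | rfl | rfl | rfl | hy
        · exact le_rfl
        · omega
        · omega
        · omega
        · omega
        · have := hs.2.2.2 y hy
          omega
  have hinj : Set.InjOn (mapB n D) (A \ excSet n D) := by
    intro p hp q hq hpq
    obtain ⟨x₀, S₀, hs₀⟩ := hsh p hp
    obtain ⟨x, S, hs, hx⟩ := mapB_spec hs₀
    obtain ⟨y₀, T₀, ht₀⟩ := hsh q hq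
    obtain ⟨y, T, ht, hy⟩ := mapB_spec ht₀
    rw [hpq, hy] at hx
    obtain ⟨hxy, hST⟩ := shape_unique hs.2.1 hs.2.2.1 hs.2.2.2 ht.2.1 ht.2.2.1 ht.2.2.2 hx.symm
    subst hxy
    subst hST
    apply Nat.Partition.ext
    rw [hs.1, ht.1]
  have hdisj : Disjoint (mSet n D) (mapB n D '' (A \ excSet n D)) := by
    rw [Set.disjoint_left]
    rintro _ hm ⟨q, hq, rfl⟩
    obtain ⟨x₀, S₀, hs₀⟩ := hsh q hq
    obtain ⟨x, S, hs, hpq⟩ := mapB_spec hs₀
    obtain ⟨y, T, hy, -, hT, -⟩ := hm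
    exact image_not_mem hs.2.1 hs.2.2.2 hT (hpq ▸ hy)
  calc A.ncard ≤ (excSet n D).ncard + (A \ excSet n D).ncard := hsplit
    _ ≤ (mSet n D).ncard + (mapB n D '' (A \ excSet n D)).ncard := by
        rw [Set.ncard_image_of_injOn hinj]
        exact Nat.add_le_add_right h4 _
    _ = (mSet n D ∪ (mapB n D '' (A \ excSet n D))).ncard :=
        (Set.ncard_union_eq hdisj (hfin _) (hfin _)).symm
    _ ≤ (maxSet FC n D).ncard := Set.ncard_le_ncard hsub (hfin _)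

end Pool.Agent.H95.FX
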