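import Pool.Agent.H95.FX.Asm
import Pool.Agent.H88.FC.Tail

/-!
# The tail theorem for forcibly connected partitions from the counting statement
-/

namespace Pool.Agent.H95.FX

open Pool.Agent.H88.FC

theorem graphical_of_grM {s : Multiset ℕ} (h : GrM s) : Graphical s := by
  obtain ⟨V, hV, G, hG⟩ := h
  rw [graphical_iff (fun v => (G.neighborSet v).ncard) hG]
  exact ⟨G, fun v => rfl⟩

theorem fc_mSet {n D : ℕ} (p : Nat.Partition n) (hp : p ∈ mSet n D) :
    ForciblyConnected p.parts := by
  obtain ⟨y, S, hy, -, -, hS, hg⟩ := hp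
  have h1 := graphical_of_grM hg
  rw [hy] at h1 ⊢
  apply domM _ h1
  rw [Multiset.card_cons, Multiset.card_cons]
  omega

theorem card_of_fc {n D : ℕ} (p : Nat.Partition n) (hp : ForciblyConnected p.parts)
    (hD : D + 1 ∈ p.parts) : D + 2 ≤ Multiset.card p.parts := by
  obtain ⟨T, hT⟩ := Multiset.exists_cons_of_mem hD
  have h1 := hp.1
  rw [hT] at h1 ⊢
  have h2 := degM h1
  rw [Multiset.card_cons]
  omega

/-- The tail theorem, from the counting statement. -/
theorem branch (h : SCount) {n D : ℕ} (hn : Even n) (h3 : 3 * D < n)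
    (hD : 100 * Real.sqrt n * Real.log n ≤ D) :
    (maxSet ForciblyConnected n (D + 1)).ncard ≤ (maxSet ForciblyConnected n D).ncard := by
  have hD3 : 3 ≤ D := by
    obtain ⟨k, hk⟩ := hn
    have hn2 : 2 ≤ n := by omega
    have h1 : (1 : ℝ) ≤ Real.sqrt n := by
      rw [show (1 : ℝ) = Real.sqrt 1 from Real.sqrt_one.symm]
      apply Real.sqrt_le_sqrt
      exact_mod_cast (by omega : 1 ≤ n)
    have h2 : (0.69 : ℝ) ≤ Real.log n := by
      have h2' : Real.log 2 ≤ Real.log n := by
        apply Real.log_le_log (by norm_num)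
        exact_mod_cast hn2
      linarith [Real.log_two_gt_d9]
    have h3' : (3 : ℝ) ≤ D := by
      have : (100 : ℝ) * 1 * 0.69 ≤ 100 * Real.sqrt n * Real.log n := by
        apply mul_le_mul _ h2 (by norm_num) (by positivity)
        linarith
      linarith
    exact_mod_cast h3'
  exact tail_of ForciblyConnected hD3 (fun p => card_of_fc p)
    (fun x S hx hxD hS hpos hfc => fc_move (by omega) hxD.le hS hpos hfc)
    (fun p hp => fc_mSet p hp) (h n D hn h3 hD)

end Pool.Agent.H95.FX
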