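import Pool.Agent.H95.FX.Stm

/-!
# T6: many partitions outside the image
-/

set_option autoImplicit false

namespace Pool.Agent.H95.FX

/-- the modified symbol -/
private def mdf (L : ℕ) (x y : ℕ × ℕ) (t : List (ℕ × ℕ)) : List (ℕ × ℕ) :=
  (x.1, x.2 + 1 + L + (3 * L - (t.length + 2) - (x.1 - 1 - y.1))) ::
    (x.1 - 1, y.2 + 1 + L) :: t.map (fun z => (z.1, z.2 + 1))

private lemma build_len_le {L : ℕ} {r : List (ℕ × ℕ)} (h : SD r)
    (hb : ∀ x ∈ r, x.1 < L ∧ x.2 < L) : r.length ≤ L := by
  have h1 : (r.map Prod.fst).Nodup := by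
    unfold List.Nodup
    rw [List.pairwise_map]
    exact h.imp fun {a b} hab => (Nat.ne_of_lt hab.1).symm
  have h2 : ((r.map Prod.fst).toFinset).card = r.length := by
    rw [List.toFinset_card_of_nodup h1, List.length_map]
  rw [← h2]
  calc ((r.map Prod.fst).toFinset).card ≤ (Finset.range L).card := by
        apply Finset.card_le_card
        intro a ha
        rw [List.mem_toFinset, List.mem_map] at ha
        obtain ⟨z, hz, rfl⟩ := ha
        exact Finset.mem_range.2 (hb z hz).1
    _ = L := Finset.card_range L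

private lemma build_sd {L : ℕ} {x y : ℕ × ℕ} {t : List (ℕ × ℕ)} (h : SD (x :: y :: t)) :
    SD (mdf L x y t) := by
  unfold SD at h ⊢
  unfold mdf
  rw [List.pairwise_cons, List.pairwise_cons] at h
  obtain ⟨h1, h2, h3⟩ := h
  have hxy := h1 y (by simp)
  refine List.pairwise_cons.2 ⟨?_, List.pairwise_cons.2 ⟨?_, ?_⟩⟩
  · intro z hz
    rcases List.mem_cons.1 hz with rfl | hz
    · constructor
      · show x.1 - 1 < x.1
        omega
      · show y.2 + 1 + L < x.2 + 1 + L + (3 * L - (t.length + 2) - (x.1 - 1 - y.1))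
        omega
    · obtain ⟨w, hw, rfl⟩ := List.mem_map.1 hz
      have := h1 w (by simp [hw])
      constructor
      · exact this.1
      · show w.2 + 1 < x.2 + 1 + L + (3 * L - (t.length + 2) - (x.1 - 1 - y.1))
        omega
  · intro z hz
    obtain ⟨w, hw, rfl⟩ := List.mem_map.1 hz
    have := h2 w hw
    constructor
    · show w.1 < x.1 - 1
      omega
    · show w.2 + 1 < y.2 + 1 + L
      omega
  · rw [List.pairwise_map]
    exact h3.imp fun {a b} hab => ⟨hab.1, Nat.add_lt_add_right hab.2 1⟩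

private lemma build_mass_map (t : List (ℕ × ℕ)) :
    mass (t.map (fun z => (z.1, z.2 + 1))) = mass t + t.length := by
  induction t with
  | nil => simp [mass]
  | cons a t ih =>
    unfold mass at ih ⊢
    simp only [List.map_cons, List.sum_cons, List.length_cons]
    rw [ih]
    omega

private lemma build_mass {L : ℕ} {x y : ℕ × ℕ} {t : List (ℕ × ℕ)} (h : SD (x :: y :: t))
    (hb : ∀ z ∈ x :: y :: t, z.1 < L ∧ z.2 < L) :
    mass (mdf L x y t) = mass (x :: y :: t) + 5 * L := by
  have h0 := build_len_le h hb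
  have hx := hb x (by simp)
  unfold SD at h
  rw [List.pairwise_cons] at h
  have hxy := h.1 y (by simp)
  have h1 := build_mass_map t
  unfold mdf
  unfold mass at h1 ⊢
  simp only [List.map_cons, List.sum_cons, List.length_cons] at h1 h0 ⊢
  rw [h1]
  omega

private lemma build_dom {L : ℕ} {x y : ℕ × ℕ} {t : List (ℕ × ℕ)}
    (hb : ∀ z ∈ x :: y :: t, z.1 < L ∧ z.2 < L) (hd : ∀ z ∈ x :: y :: t, z.1 ≤ z.2)
    (hxy : y.1 < x.1) :
    ∀ z ∈ mdf L x y t, z.1 + 1 ≤ z.2 := by
  intro z hz
  unfold mdf at hz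
  have hx := hb x (by simp)
  have hx' := hd x (by simp)
  rcases List.mem_cons.1 hz with rfl | hz
  · show x.1 + 1 ≤ x.2 + 1 + L + (3 * L - (t.length + 2) - (x.1 - 1 - y.1))
    omega
  rcases List.mem_cons.1 hz with rfl | hz
  · show x.1 - 1 + 1 ≤ y.2 + 1 + L
    omega
  · obtain ⟨w, hw, rfl⟩ := List.mem_map.1 hz
    have := hd w (by simp [hw])
    show w.1 + 1 ≤ w.2 + 1
    omega

private lemma build_fro {L : ℕ} {x y : ℕ × ℕ} {t : List (ℕ × ℕ)} (hxy : y.1 < x.1) :
    ∃ rest : List ℕ, fro (mdf L x y t) = (x.1 + 1) :: (x.1 + 1) :: rest := by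
  unfold mdf
  rw [fro, fro]
  simp only [List.map_cons, List.cons_append, List.length_cons]
  have h1 : x.1 - 1 + 1 = x.1 := by omega
  rw [h1]
  exact ⟨_, rfl⟩

private lemma build_zeros (hiso : SIso) {s : Multiset ℕ} (h : GrM s) (k : ℕ) :
    GrM (s + Multiset.replicate k 0) := by
  induction k with
  | zero => simpa using h
  | succ k ih =>
    rw [Multiset.replicate_succ, Multiset.add_cons]
    exact hiso _ ih

/-- the parts of the partition obtained from a list -/
private def prt (D : ℕ) (l : List ℕ) : Multiset ℕ :=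
  D ::ₘ ((l : Multiset ℕ).map (· + 1) + Multiset.replicate (D - l.length) 1)

private lemma build_sum (l : List ℕ) :
    ((l : Multiset ℕ).map (· + 1)).sum = l.sum + l.length := by
  rw [Multiset.map_coe, Multiset.sum_coe]
  induction l with
  | nil => simp
  | cons a l ih =>
    simp only [List.map_cons, List.sum_cons, List.length_cons]
    rw [ih]
    omega

private lemma build_exists (hlen : SLen) (hsum : SSum) (hsort : SSort)
    (hgr : SGr) (huniv : SUniv) (hiso : SIso) {n D L N : ℕ} (hL : 1 ≤ L) (hLD : 8 * L ≤ D)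
    (hn : Even n) (hN : N + 2 * D + 5 * L = n) {x y : ℕ × ℕ} {t : List (ℕ × ℕ)}
    (hr : x :: y :: t ∈ domSet2 L N) :
    ∃ p ∈ mSet n D, p.parts = prt D (fro (mdf L x y t)) := by
  obtain ⟨⟨⟨hsd, hmass, hb⟩, hd⟩, hlen2⟩ := hr
  have hxy : y.1 < x.1 := by
    have := hsd
    unfold SD at this
    rw [List.pairwise_cons] at this
    exact (this.1 y (by simp)).1
  have hx := hb x (by simp)
  have hl := build_len_le hsd hb
  have hsd' := build_sd (L := L) hsd
  have hmass' := build_mass hsd hb
  have hdom' := build_dom hb hd hxy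
  obtain ⟨rest, hrest⟩ := build_fro (L := L) (t := t) hxy
  have hlenf : (fro (mdf L x y t)).length =
      x.2 + 1 + L + (3 * L - (t.length + 2) - (x.1 - 1 - y.1)) + 1 := by
    have := hlen (x.1, x.2 + 1 + L + (3 * L - (t.length + 2) - (x.1 - 1 - y.1)))
      ((x.1 - 1, y.2 + 1 + L) :: t.map (fun z : ℕ × ℕ => (z.1, z.2 + 1))) hsd'
    exact this
  have hlD : (fro (mdf L x y t)).length ≤ D := by
    rw [hlenf]
    simp only [List.length_cons] at hl
    omega
  have hsumf : (fro (mdf L x y t)).sum = N + 5 * L := by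
    rw [hsum _ hsd', hmass', hmass]
  have heven : Even (mass (mdf L x y t)) := by
    rw [hmass', hmass]
    have h1 : n = (N + 5 * L) + 2 * D := by omega
    rw [h1, Nat.even_add] at hn
    exact hn.2 (even_two_mul D)
  have hG := build_zeros hiso (hgr _ hsd' hdom' heven) (D - (fro (mdf L x y t)).length)
  have hG' := huniv _ hG
  have hcard : Multiset.card ((fro (mdf L x y t) : Multiset ℕ) +
      Multiset.replicate (D - (fro (mdf L x y t)).length) 0) = D := by
    rw [Multiset.card_add, Multiset.card_replicate, Multiset.coe_card]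
    omega
  have hG2 : GrM (prt D (fro (mdf L x y t))) := by
    rw [hcard, Multiset.map_add, Multiset.map_replicate] at hG'
    exact hG'
  have hsumP : (prt D (fro (mdf L x y t))).sum = n := by
    unfold prt
    rw [Multiset.sum_cons, Multiset.sum_add, build_sum, Multiset.sum_replicate, hsumf]
    simp only [smul_eq_mul, mul_one]
    omega
  have hpos : ∀ i ∈ prt D (fro (mdf L x y t)), 0 < i := by
    intro i hi
    unfold prt at hi
    rcases Multiset.mem_cons.1 hi with rfl | hi
    · omega
    rcases Multiset.mem_add.1 hi with hi | hi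
    · obtain ⟨w, -, rfl⟩ := Multiset.mem_map.1 hi
      exact Nat.succ_pos w
    · rw [Multiset.eq_of_mem_replicate hi]
      exact Nat.one_pos
  refine ⟨⟨prt D (fro (mdf L x y t)), fun {i} hi => hpos i hi, hsumP⟩, ?_, rfl⟩
  have hsorted := hsort _ hsd'
  rw [hrest, List.pairwise_cons, List.pairwise_cons] at hsorted
  refine ⟨x.1 + 1 + 1, (rest : Multiset ℕ).map (· + 1) +
    Multiset.replicate (D - (fro (mdf L x y t)).length) 1, ?_, ?_, ?_, ?_, hG2⟩
  · show prt D (fro (mdf L x y t)) = _
    unfold prt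
    rw [hrest]
    rw [← Multiset.cons_coe, ← Multiset.cons_coe, Multiset.map_cons, Multiset.map_cons,
      Multiset.cons_add, Multiset.cons_add]
  · omega
  · intro z hz
    rcases Multiset.mem_add.1 hz with hz | hz
    · obtain ⟨w, hw, rfl⟩ := Multiset.mem_map.1 hz
      have := hsorted.1 w (by simp [Multiset.mem_coe.1 hw])
      omega
    · rw [Multiset.eq_of_mem_replicate hz]
      omega
  · rw [Multiset.card_add, Multiset.card_map, Multiset.card_replicate, Multiset.coe_card]
    have : (fro (mdf L x y t)).length = rest.length + 2 := by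
      rw [hrest]
      simp
    omega

private lemma build_filter {l : List ℕ} (h : ∀ y ∈ l, 1 ≤ y) (k : ℕ) :
    ((l : Multiset ℕ).map (· + 1) + Multiset.replicate k 1).filter (fun a => a ≠ 1) =
      (l : Multiset ℕ).map (· + 1) := by
  rw [Multiset.filter_add]
  have h1 : Multiset.filter (fun a => a ≠ 1) (Multiset.replicate k 1) = 0 := by
    rw [Multiset.filter_eq_nil]
    intro a ha
    rw [Multiset.eq_of_mem_replicate ha]
    simp
  rw [h1, add_zero, Multiset.filter_eq_self]
  intro a ha
  obtain ⟨w, hw, rfl⟩ := Multiset.mem_map.1 ha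
  have := h w (Multiset.mem_coe.1 hw)
  show w + 1 ≠ 1
  omega

private lemma build_inj (hsort : SSort) (hpos : SPos) (hinj : SInj) {D : ℕ}
    {r r' : List (ℕ × ℕ)} (h : SD r) (h' : SD r') (he : prt D (fro r) = prt D (fro r')) :
    r = r' := by
  unfold prt at he
  have h1 := (Multiset.cons_inj_right D).1 he
  have h2 := congrArg (Multiset.filter (fun a => a ≠ 1)) h1
  rw [build_filter (hpos r), build_filter (hpos r')] at h2
  have h3 : (fro r : Multiset ℕ) = (fro r' : Multiset ℕ) :=
    Multiset.map_injective (fun a b hab => Nat.add_right_cancel hab) h2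
  have h4 : (fro r).Perm (fro r') := Multiset.coe_eq_coe.1 h3
  have h5 : fro r = fro r' := by
    refine h4.eq_of_pairwise (fun a b _ _ hab hba => ?_) (hsort r h) (hsort r' h')
    exact le_antisymm hba hab
  exact hinj r r' h h' h5

private lemma build_mdf_inj {L : ℕ} {x y x' y' : ℕ × ℕ} {t t' : List (ℕ × ℕ)}
    (hy : y.1 = y'.1) (h : mdf L x y t = mdf L x' y' t') :
    x :: y :: t = x' :: y' :: t' := by
  unfold mdf at h
  rw [List.cons.injEq, List.cons.injEq, Prod.mk.injEq, Prod.mk.injEq] at h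
  obtain ⟨⟨h1, h2⟩, ⟨-, h4⟩, h5⟩ := h
  have ht : t = t' := by
    refine List.map_injective_iff.2 (fun a b hab => ?_) h5
    rw [Prod.mk.injEq] at hab
    exact Prod.ext hab.1 (Nat.add_right_cancel hab.2)
  subst ht
  have hyy : y = y' := Prod.ext hy (by omega)
  subst hyy
  have hxx : x = x' := by
    refine Prod.ext h1 ?_
    rw [h1] at h2
    omega
  rw [hxx]

theorem build (hlen : SLen) (hsum : SSum) (hsort : SSort) (hpos : SPos) (hinj : SInj) (_hfin : SFin)
    (hgr : SGr) (huniv : SUniv) (hiso : SIso) : SBuild := by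
  intro n D L N hL hLD hn hN
  classical
  have hex : ∀ r ∈ domSet2 L N, ∃ q : Nat.Partition n × ℕ,
      q ∈ mSet n D ×ˢ (Set.Iio L) ∧
      ∃ (x y : ℕ × ℕ) (t : List (ℕ × ℕ)), r = x :: y :: t ∧ q.2 = y.1 ∧
        q.1.parts = prt D (fro (mdf L x y t)) := by
    intro r hr
    match r, hr with
    | [], hr => exact absurd hr.2 (by simp)
    | [_], hr => exact absurd hr.2 (by simp)
    | x :: y :: t, hr =>
      obtain ⟨p, hp, hpp⟩ := build_exists hlen hsum hsort hgr huniv hiso hL hLD hn hN hr
      refine ⟨(p, y.1), ⟨hp, ?_⟩, x, y, t, rfl, rfl, hpp⟩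
      exact (hr.1.1.2.2 y (by simp)).1
  choose! f hf using hex
  have hfin : (mSet n D ×ˢ (Set.Iio L)).Finite := (Set.toFinite _).prod (Set.finite_Iio L)
  have h1 : (domSet2 L N).ncard ≤ (mSet n D ×ˢ (Set.Iio L)).ncard := by
    refine Set.ncard_le_ncard_of_injOn f (fun r hr => (hf r hr).1) ?_ hfin
    intro r hr r' hr' he
    obtain ⟨-, x, y, t, rfl, h2, h3⟩ := hf r hr
    obtain ⟨-, x', y', t', rfl, h2', h3'⟩ := hf r' hr'
    rw [he] at h2 h3
    refine build_mdf_inj (L := L) (h2.symm.trans h2') ?_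
    exact build_inj hsort hpos hinj (build_sd hr.1.1.1) (build_sd hr'.1.1.1) (h3.symm.trans h3')
  rw [Set.ncard_prod, Set.ncard_Iio_nat, mul_comm] at h1
  exact h1

end Pool.Agent.H95.FX
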