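import Pool.Agent.H95.FX.Stm

/-!
# MP_c916f9_co, project TM+, row T3c: partitions and Frobenius symbols, the covering inequality
-/

namespace Pool.Agent.H95.FX

open Finset

/-! ### small facts on multisets -/

theorem cv_sum_pred (s : Multiset ℕ) (h : ∀ x ∈ s, 1 ≤ x) :
    (s.map (· - 1)).sum + Multiset.card s = s.sum := by
  induction s using Multiset.induction_on with
  | empty => simp
  | cons a s ih =>
    have h1 := ih fun x hx => h x (Multiset.mem_cons_of_mem hx)
    have h2 := h a (Multiset.mem_cons_self a s)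
    rw [Multiset.map_cons, Multiset.sum_cons, Multiset.sum_cons, Multiset.card_cons]
    omega

theorem cv_card_le (s : Multiset ℕ) :
    Multiset.card ((s.map (· - 1)).filter (· ≠ 0)) ≤ Multiset.card s := by
  refine (Multiset.card_le_card (Multiset.filter_le _ _)).trans ?_
  rw [Multiset.card_map]

theorem cv_rebuild (s : Multiset ℕ) (h : ∀ x ∈ s, 1 ≤ x) :
    ((s.map (· - 1)).filter (· ≠ 0)).map (· + 1) +
      Multiset.replicate (Multiset.card s - Multiset.card ((s.map (· - 1)).filter (· ≠ 0))) 1 =
        s := by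
  induction s using Multiset.induction_on with
  | empty => simp
  | cons a s ih =>
    have h1 := ih fun x hx => h x (Multiset.mem_cons_of_mem hx)
    have h2 := h a (Multiset.mem_cons_self a s)
    have h3 := cv_card_le s
    rw [Multiset.map_cons, Multiset.card_cons]
    by_cases ha : a - 1 = 0
    · have ha1 : a = 1 := by omega
      rw [Multiset.filter_cons_of_neg (p := (· ≠ 0)) _ (not_not.2 ha)]
      have e : Multiset.card s + 1 - Multiset.card ((s.map (· - 1)).filter (· ≠ 0)) =
          Multiset.card s - Multiset.card ((s.map (· - 1)).filter (· ≠ 0)) + 1 := by omega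
      rw [e, Multiset.replicate_succ, Multiset.add_cons, h1, ha1]
    · rw [Multiset.filter_cons_of_pos (p := (· ≠ 0)) _ ha, Multiset.map_cons, Multiset.card_cons,
        Multiset.cons_add]
      have e : Multiset.card s + 1 - (Multiset.card ((s.map (· - 1)).filter (· ≠ 0)) + 1) =
          Multiset.card s - Multiset.card ((s.map (· - 1)).filter (· ≠ 0)) := by omega
      rw [e, h1, show a - 1 + 1 = a by omega]

theorem cv_part_le {N : ℕ} (p : Nat.Partition N) {x : ℕ} (hx : x ∈ p.parts) : x ≤ N := by
  have := Multiset.le_sum_of_mem hx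
  rw [p.parts_sum] at this
  exact this

/-! ### a large part -/

/-- a new part -/
def cvA (N j : ℕ) (q : Nat.Partition (N - j)) : Nat.Partition N :=
  if h : 0 < j ∧ j ≤ N then
    { parts := j ::ₘ q.parts
      parts_pos := by
        intro i hi
        rcases Multiset.mem_cons.1 hi with rfl | hi
        · exact h.1
        · exact q.parts_pos hi
      parts_sum := by
        rw [Multiset.sum_cons, q.parts_sum]
        omega }
  else default

theorem cvA_surj {N j : ℕ} (p : Nat.Partition N) (hj : j ∈ p.parts) : ∃ q, cvA N j q = p := by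
  have h1 : 0 < j := p.parts_pos hj
  have h2 : j ≤ N := cv_part_le p hj
  have h3 : j ::ₘ p.parts.erase j = p.parts := Multiset.cons_erase hj
  have h4 : (p.parts.erase j).sum = N - j := by
    have h5 := congrArg Multiset.sum h3
    rw [Multiset.sum_cons, p.parts_sum] at h5
    omega
  refine ⟨⟨p.parts.erase j, fun {i} hi => p.parts_pos (Multiset.mem_of_mem_erase hi), h4⟩, ?_⟩
  unfold cvA
  rw [dif_pos ⟨h1, h2⟩]
  exact Nat.Partition.ext h3

/-! ### many parts -/

/-- `k` new cells, one in each of the `k` rows -/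
def cvB (N k : ℕ) (q : Nat.Partition (N - k)) : Nat.Partition N :=
  if h : Multiset.card q.parts ≤ k ∧ k ≤ N then
    { parts := q.parts.map (· + 1) + Multiset.replicate (k - Multiset.card q.parts) 1
      parts_pos := by
        intro i hi
        rcases Multiset.mem_add.1 hi with hi | hi
        · obtain ⟨a, -, rfl⟩ := Multiset.mem_map.1 hi
          omega
        · rw [Multiset.eq_of_mem_replicate hi]
          omega
      parts_sum := by
        rw [Multiset.sum_add, Multiset.sum_replicate, Multiset.sum_map_add, Multiset.map_id',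
          q.parts_sum, Multiset.map_const', Multiset.sum_replicate]
        simp only [smul_eq_mul, mul_one]
        omega }
  else default

theorem cvB_surj {N : ℕ} (p : Nat.Partition N) : ∃ q, cvB N (Multiset.card p.parts) q = p := by
  have h0 : ∀ x ∈ p.parts, 1 ≤ x := fun x hx => p.parts_pos hx
  have h1 := cv_sum_pred p.parts h0
  rw [p.parts_sum] at h1
  have h2 := cv_card_le p.parts
  have h3 := cv_rebuild p.parts h0
  refine ⟨Nat.Partition.ofSums (N - Multiset.card p.parts) (p.parts.map (· - 1)) (by omega), ?_⟩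
  unfold cvB
  rw [dif_pos ⟨h2, by omega⟩]
  exact Nat.Partition.ext h3

/-! ### few small parts -/

theorem cv_SD_head {x : ℕ × ℕ} {r : List (ℕ × ℕ)} (h : SD (x :: r)) :
    ∀ y ∈ x :: r, y.1 ≤ x.1 ∧ y.2 ≤ x.2 := by
  intro y hy
  rcases List.mem_cons.1 hy with rfl | hy
  · exact ⟨le_rfl, le_rfl⟩
  · have := (List.pairwise_cons.1 h).1 y hy
    exact ⟨this.1.le, this.2.le⟩

theorem cv_sym (hs : SSum) (hl : SLen) (hf : SFro) (L N : ℕ) (p : Nat.Partition N)
    (h1 : ∀ x ∈ p.parts, x ≤ L) (h2 : Multiset.card p.parts ≤ L) :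
    ∃ r ∈ symSet L N, (fro r : Multiset ℕ) = p.parts := by
  obtain ⟨r, hr, hfr⟩ := hf (p.parts.sort (· ≥ ·)) (Multiset.pairwise_sort _ _) fun x hx =>
    p.parts_pos ((Multiset.mem_sort _).1 hx)
  have h3 : (fro r : Multiset ℕ) = p.parts := by rw [hfr, Multiset.sort_eq]
  refine ⟨r, ⟨hr, ?_, ?_⟩, h3⟩
  · rw [← hs r hr, ← Multiset.sum_coe, h3, p.parts_sum]
  · cases r with
    | nil => simp
    | cons x r =>
      intro y hy
      have h4 := cv_SD_head hr y hy
      have h5 : x.1 + 1 ∈ p.parts := by
        rw [← h3]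
        simp [fro]
      have h6 := h1 _ h5
      have h7 := hl x r hr
      have h8 : Multiset.card (fro (x :: r) : Multiset ℕ) = (fro (x :: r)).length := rfl
      rw [h3, h7] at h8
      omega

theorem cv_sum_le (hm : SMono) (L N : ℕ) (f : (j : ℕ) → Nat.Partition (N - j) → Nat.Partition N) :
    ((Icc (L + 1) N).biUnion fun j => univ.image (f j)).card ≤ N * P (N - L - 1) := by
  classical
  refine card_biUnion_le.trans ?_
  have h1 : ∀ j ∈ Icc (L + 1) N, (univ.image (f j)).card ≤ P (N - L - 1) := by
    intro j hj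
    rw [mem_Icc] at hj
    refine card_image_le.trans ?_
    have h2 : P (N - j) ≤ P (N - L - 1) := hm _ _ (by omega)
    have h3 : (univ : Finset (Nat.Partition (N - j))).card = P (N - j) := by
      unfold P
      rw [Nat.card_eq_fintype_card, card_univ]
    rw [h3]
    exact h2
  refine (sum_le_card_nsmul _ _ _ h1).trans ?_
  rw [Nat.card_Icc, smul_eq_mul]
  exact Nat.mul_le_mul_right _ (by omega)

/-- T3c -/
theorem cov (hm : SMono) (hs : SSum) (hl : SLen) (hf : SFro) (hfin : SFin) : SCov := by
  classical
  intro L N hLN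
  set A : Finset (Nat.Partition N) := univ.filter fun p =>
    (∀ x ∈ p.parts, x ≤ L) ∧ Multiset.card p.parts ≤ L with hA
  set B : Finset (Nat.Partition N) := (Icc (L + 1) N).biUnion fun j => univ.image (cvA N j) with hB
  set C : Finset (Nat.Partition N) := (Icc (L + 1) N).biUnion fun j => univ.image (cvB N j) with hC
  have h1 : P N = (univ : Finset (Nat.Partition N)).card := by
    unfold P
    rw [Nat.card_eq_fintype_card, card_univ]
  have h2 : (univ : Finset (Nat.Partition N)) ⊆ A ∪ (B ∪ C) := by
    intro p _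
    by_cases hp1 : ∀ x ∈ p.parts, x ≤ L
    · by_cases hp2 : Multiset.card p.parts ≤ L
      · exact mem_union_left _ (mem_filter.2 ⟨mem_univ p, hp1, hp2⟩)
      · refine mem_union_right _ (mem_union_right _ (mem_biUnion.2 ⟨Multiset.card p.parts, ?_, ?_⟩))
        · have h3 := cv_sum_pred p.parts fun x hx => p.parts_pos hx
          rw [p.parts_sum] at h3
          rw [mem_Icc]
          omega
        · obtain ⟨q, hq⟩ := cvB_surj p
          exact mem_image.2 ⟨q, mem_univ q, hq⟩
    · obtain ⟨x, hx, hxL⟩ : ∃ x ∈ p.parts, L < x := by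
        by_contra hcon
        exact hp1 fun x hx => not_lt.1 fun h => hcon ⟨x, hx, h⟩
      refine mem_union_right _ (mem_union_left _ (mem_biUnion.2 ⟨x, ?_, ?_⟩))
      · rw [mem_Icc]
        exact ⟨hxL, cv_part_le p hx⟩
      · obtain ⟨q, hq⟩ := cvA_surj p hx
        exact mem_image.2 ⟨q, mem_univ q, hq⟩
  have h3 : A.card ≤ (symSet L N).ncard := by
    have h4 : ∀ p : Nat.Partition N, ∃ r : List (ℕ × ℕ), p ∈ A →
        r ∈ symSet L N ∧ (fro r : Multiset ℕ) = p.parts := by
      intro p
      by_cases hp : p ∈ A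
      · obtain ⟨r, hr1, hr2⟩ := cv_sym hs hl hf L N p (mem_filter.1 hp).2.1 (mem_filter.1 hp).2.2
        exact ⟨r, fun _ => ⟨hr1, hr2⟩⟩
      · exact ⟨[], fun h => absurd h hp⟩
    choose g hg using h4
    rw [Set.ncard_eq_toFinset_card _ (hfin L N)]
    refine card_le_card_of_injOn g (fun p hp => ?_) fun p hp q hq hpq => ?_
    · rw [mem_coe, Set.Finite.mem_toFinset]
      exact (hg p hp).1
    · refine Nat.Partition.ext ?_
      rw [← (hg p hp).2, ← (hg q hq).2, hpq]
  have h4 : B.card ≤ N * P (N - L - 1) := cv_sum_le hm L N (cvA N)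
  have h5 : C.card ≤ N * P (N - L - 1) := cv_sum_le hm L N (cvB N)
  have h6 := card_le_card h2
  have h7 := card_union_le A (B ∪ C)
  have h8 := card_union_le B C
  rw [h1]
  have e : 2 * N * P (N - L - 1) = N * P (N - L - 1) + N * P (N - L - 1) := by ring
  rw [e]
  omega

end Pool.Agent.H95.FX
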