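import Pool.Agent.H95.FX.Stm

/-!
# The exceptional partitions are few (SExc)
-/

set_option autoImplicit false

namespace Pool.Agent.H95.FX

open Multiset

/-- counting by an injective relation -/
theorem exc_ncard_le_of_rel {α β : Type*} (s : Set α) (t : Set β) (ht : t.Finite)
    (R : α → β → Prop) (h1 : ∀ a ∈ s, ∃ b ∈ t, R a b)
    (h2 : ∀ a a' : α, ∀ b : β, R a b → R a' b → a = a') : s.ncard ≤ t.ncard := by
  classical
  rcases s.eq_empty_or_nonempty with rfl | ⟨a0, ha0⟩
  · simp
  have : Nonempty β := ⟨(h1 a0 ha0).choose⟩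
  choose! f hf hR using h1
  exact Set.ncard_le_ncard_of_injOn f hf
    (fun a ha a' ha' h => h2 a a' (f a) (hR a ha) (by rw [h]; exact hR a' ha')) ht

/-- ones, twos, and the rest -/
theorem exc_dec3 (ρ : Multiset ℕ) (hpos : ∀ x ∈ ρ, 1 ≤ x) :
    ∃ (k : ℕ) (τ : Multiset ℕ), (∀ x ∈ τ, 1 ≤ x) ∧
      ρ = replicate (ρ.count 1) 1 + replicate k 2 + τ.map (· + 2) := by
  induction ρ using Multiset.induction_on with
  | empty => exact ⟨0, 0, by simp, by simp⟩
  | cons a ρ ih =>
    obtain ⟨k, τ, hτ, h⟩ := ih (fun x hx => hpos x (mem_cons_of_mem hx))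
    have ha := hpos a (mem_cons_self a ρ)
    rcases Nat.lt_or_ge a 2 with h1 | h1
    · obtain rfl : a = 1 := by omega
      refine ⟨k, τ, hτ, ?_⟩
      rw [count_cons_self, replicate_succ, cons_add, cons_add, ← h]
    · rcases Nat.lt_or_ge a 3 with h2 | h2
      · obtain rfl : a = 2 := by omega
        refine ⟨k + 1, τ, hτ, ?_⟩
        rw [count_cons_of_ne (by norm_num), replicate_succ, add_cons, cons_add, ← h]
      · refine ⟨k, (a - 2) ::ₘ τ, ?_, ?_⟩
        · intro x hx
          rcases mem_cons.1 hx with rfl | hx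
          · omega
          · exact hτ x hx
        · rw [count_cons_of_ne (by omega), map_cons, add_cons, ← h]
          congr 1
          omega

/-- ones and the rest -/
theorem exc_dec2 (ρ : Multiset ℕ) (hpos : ∀ x ∈ ρ, 1 ≤ x) :
    ∃ (k : ℕ) (τ : Multiset ℕ), (∀ x ∈ τ, 1 ≤ x) ∧
      ρ = replicate k 1 + τ.map (· + 1) := by
  induction ρ using Multiset.induction_on with
  | empty => exact ⟨0, 0, by simp, by simp⟩
  | cons a ρ ih =>
    obtain ⟨k, τ, hτ, h⟩ := ih (fun x hx => hpos x (mem_cons_of_mem hx))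
    have ha := hpos a (mem_cons_self a ρ)
    rcases Nat.lt_or_ge a 2 with h1 | h1
    · obtain rfl : a = 1 := by omega
      refine ⟨k + 1, τ, hτ, ?_⟩
      rw [replicate_succ, cons_add, ← h]
    · refine ⟨k, (a - 1) ::ₘ τ, ?_, ?_⟩
      · intro x hx
        rcases mem_cons.1 hx with rfl | hx
        · omega
        · exact hτ x hx
      · rw [map_cons, add_cons, ← h]
        congr 1
        omega

/-- padding by ones -/
theorem exc_pad (M : ℕ) (τ : Multiset ℕ) (hτ : ∀ x ∈ τ, 1 ≤ x) (h : τ.sum ≤ M) :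
    ∃ q : Nat.Partition M, q.parts = τ + replicate (M - τ.sum) 1 := by
  refine ⟨⟨τ + replicate (M - τ.sum) 1, ?_, ?_⟩, rfl⟩
  · intro x hx
    rcases mem_add.1 hx with hx | hx
    · exact hτ x hx
    · rw [eq_of_mem_replicate hx]
      norm_num
  · rw [sum_add, sum_replicate]
    simp
    omega

theorem exc_sum_map_add (τ : Multiset ℕ) (c : ℕ) :
    (τ.map (· + c)).sum = τ.sum + c * card τ := by
  induction τ using Multiset.induction_on with
  | empty => simp
  | cons a τ ih =>
    rw [map_cons, sum_cons, sum_cons, card_cons, ih]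
    ring

theorem exc_card_le_sum (τ : Multiset ℕ) (hτ : ∀ x ∈ τ, 1 ≤ x) : card τ ≤ τ.sum := by
  induction τ using Multiset.induction_on with
  | empty => simp
  | cons a τ ih =>
    rw [sum_cons, card_cons]
    have := ih (fun x hx => hτ x (mem_cons_of_mem hx))
    have := hτ a (mem_cons_self a τ)
    omega

theorem exc_P_pos (M : ℕ) : 1 ≤ P M := by
  unfold P
  have : 0 < Nat.card (Nat.Partition M) := Nat.card_pos
  omega

theorem exc_set_card (M a b : ℕ) (s : Finset ℕ) :
    (((s ×ˢ Finset.range b ×ˢ (Finset.univ : Finset (Nat.Partition M))) :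
      Finset (ℕ × ℕ × Nat.Partition M)) : Set (ℕ × ℕ × Nat.Partition M)).ncard =
      s.card * (b * P M) + 0 * a := by
  rw [Set.ncard_coe_finset, Finset.card_product, Finset.card_product, Finset.card_range, P,
    Nat.card_eq_fintype_card, Finset.card_univ]
  ring

def exc1 (n D : ℕ) : Set (Nat.Partition n) :=
  {p | ∃ ρ : Multiset ℕ, p.parts = (D + 1) ::ₘ ρ ∧ D + 1 ≤ card ρ ∧ ρ.count 1 ≤ 3}

def exc2 (n D : ℕ) : Set (Nat.Partition n) :=
  {p | ∃ σ : Multiset ℕ, ∃ x : ℕ, (x = D ∨ x = D + 1) ∧ p.parts = (D + 1) ::ₘ x ::ₘ σ ∧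
    D ≤ card σ}

def exc3 (n D : ℕ) : Set (Nat.Partition n) :=
  {p | ∃ ρ : Multiset ℕ, p.parts = (D + 1) ::ₘ ρ ∧ ∀ x ∈ ρ, x = 1}

theorem exc1_le (n D : ℕ) : (exc1 n D).ncard ≤ (n + 1) * (4 * P (n - 3 * D)) := by
  refine (exc_ncard_le_of_rel (exc1 n D)
    (((Finset.range (n + 1)) ×ˢ Finset.range 4 ×ˢ
      (Finset.univ : Finset (Nat.Partition (n - 3 * D))) :
      Finset (ℕ × ℕ × Nat.Partition (n - 3 * D))) : Set (ℕ × ℕ × Nat.Partition (n - 3 * D)))
    (Finset.finite_toSet _)
    (fun p c => ∃ (s k r : ℕ) (τ : Multiset ℕ),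
      p.parts = (D + 1) ::ₘ (replicate s 1 + replicate k 2 + τ.map (· + 2)) ∧
      c.1 = s + k + card τ ∧ c.2.1 = s ∧ c.2.2.parts = τ + replicate r 1) ?_ ?_).trans ?_
  · rintro p ⟨ρ, hp, hc, h1⟩
    have hpos : ∀ x ∈ ρ, 1 ≤ x := fun x hx =>
      p.parts_pos (by rw [hp]; exact mem_cons_of_mem hx)
    obtain ⟨k, τ, hτ, hρ⟩ := exc_dec3 ρ hpos
    have hs := p.parts_sum
    generalize ρ.count 1 = s at *
    rw [hp, sum_cons] at hs
    have hsum : ρ.sum = s + k * 2 + (τ.sum + 2 * card τ) := by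
      rw [hρ, sum_add, sum_add, sum_replicate, sum_replicate, exc_sum_map_add]
      simp
    have hcard : card ρ = s + k + card τ := by
      rw [hρ, card_add, card_add, card_replicate, card_replicate, card_map]
    obtain ⟨q, hq⟩ := exc_pad (n - 3 * D) τ hτ (by omega)
    refine ⟨(card ρ, s, q), ?_, s, k, _, τ, by rw [hp, ← hρ], hcard, rfl, hq⟩
    have := exc_card_le_sum ρ hpos
    simp only [Finset.coe_product, Set.mem_prod, Finset.mem_coe, Finset.mem_range,
      Finset.mem_univ, and_true]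
    omega
  · rintro p p' c ⟨s, k, r, τ, hp, h1, h2, h3⟩ ⟨s', k', r', τ', hp', h1', h2', h3'⟩
    have hs := p.parts_sum
    have hs' := p'.parts_sum
    have hq := c.2.2.parts_sum
    have hq' := c.2.2.parts_sum
    rw [hp, sum_cons, sum_add, sum_add, sum_replicate, sum_replicate, exc_sum_map_add] at hs
    rw [hp', sum_cons, sum_add, sum_add, sum_replicate, sum_replicate, exc_sum_map_add] at hs'
    rw [h3, sum_add, sum_replicate] at hq
    rw [h3', sum_add, sum_replicate] at hq'
    simp only [smul_eq_mul, mul_one] at hs hs' hq hq'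
    have e1 : s = s' := by omega
    subst e1
    have e2 : τ.sum = τ'.sum := by omega
    have e3 : r = r' := by omega
    subst e3
    have e4 : τ = τ' := by
      have := h3.symm.trans h3'
      exact add_right_cancel this
    subst e4
    have e5 : k = k' := by omega
    subst e5
    exact Nat.Partition.ext (hp.trans hp'.symm)
  · rw [exc_set_card _ 0, Finset.card_range]
    omega

theorem exc2_le (n D : ℕ) (h : 3 * D < n) : (exc2 n D).ncard ≤ 2 * ((n + 1) * P (n - 3 * D)) := by
  refine (exc_ncard_le_of_rel (exc2 n D)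
    (((({D, D + 1} : Finset ℕ)) ×ˢ Finset.range (n + 1) ×ˢ
      (Finset.univ : Finset (Nat.Partition (n - 3 * D))) :
      Finset (ℕ × ℕ × Nat.Partition (n - 3 * D))) : Set (ℕ × ℕ × Nat.Partition (n - 3 * D)))
    (Finset.finite_toSet _)
    (fun p c => ∃ (x k r : ℕ) (τ : Multiset ℕ),
      p.parts = (D + 1) ::ₘ x ::ₘ (replicate k 1 + τ.map (· + 1)) ∧
      c.1 = x ∧ c.2.1 = k + card τ ∧ c.2.2.parts = τ + replicate r 1) ?_ ?_).trans ?_
  · rintro p ⟨σ, x, hx, hp, hc⟩
    have hpos : ∀ y ∈ σ, 1 ≤ y := fun y hy =>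
      p.parts_pos (by rw [hp]; exact mem_cons_of_mem (mem_cons_of_mem hy))
    obtain ⟨k, τ, hτ, hσ⟩ := exc_dec2 σ hpos
    have hs := p.parts_sum
    rw [hp, sum_cons, sum_cons] at hs
    have hsum : σ.sum = k + (τ.sum + 1 * card τ) := by
      rw [hσ, sum_add, sum_replicate, exc_sum_map_add]
      simp
    have hcard : card σ = k + card τ := by
      rw [hσ, card_add, card_replicate, card_map]
    obtain ⟨q, hq⟩ := exc_pad (n - 3 * D) τ hτ (by omega)
    refine ⟨(x, card σ, q), ?_, x, k, _, τ, by rw [hp, ← hσ], rfl, hcard, hq⟩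
    have := exc_card_le_sum σ hpos
    simp only [Finset.coe_product, Set.mem_prod, Finset.mem_coe, Finset.mem_range,
      Finset.mem_univ, and_true, Finset.mem_insert, Finset.mem_singleton]
    omega
  · rintro p p' c ⟨s, k, r, τ, hp, h1, h2, h3⟩ ⟨s', k', r', τ', hp', h1', h2', h3'⟩
    have hs := p.parts_sum
    have hs' := p'.parts_sum
    have hq := c.2.2.parts_sum
    have hq' := c.2.2.parts_sum
    rw [hp, sum_cons, sum_cons, sum_add, sum_replicate, exc_sum_map_add] at hs
    rw [hp', sum_cons, sum_cons, sum_add, sum_replicate, exc_sum_map_add] at hs'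
    rw [h3, sum_add, sum_replicate] at hq
    rw [h3', sum_add, sum_replicate] at hq'
    simp only [smul_eq_mul, mul_one] at hs hs' hq hq'
    have e1 : s = s' := by omega
    subst e1
    have e2 : τ.sum = τ'.sum := by omega
    have e3 : r = r' := by omega
    subst e3
    have e4 : τ = τ' := by
      have := h3.symm.trans h3'
      exact add_right_cancel this
    subst e4
    have e5 : k = k' := by omega
    subst e5
    exact Nat.Partition.ext (hp.trans hp'.symm)
  · rw [exc_set_card _ 0, Finset.card_pair (by omega)]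
    omega

theorem exc3_le (n D : ℕ) : (exc3 n D).ncard ≤ 1 := by
  rw [Set.ncard_le_one_iff_subsingleton]
  rintro p ⟨ρ, hp, h⟩ p' ⟨ρ', hp', h'⟩
  have e := eq_replicate_card.2 h
  have e' := eq_replicate_card.2 h'
  have hs := p.parts_sum
  have hs' := p'.parts_sum
  rw [hp, sum_cons, e, sum_replicate] at hs
  rw [hp', sum_cons, e', sum_replicate] at hs'
  simp only [smul_eq_mul, mul_one] at hs hs'
  have e1 : card ρ = card ρ' := by omega
  apply Nat.Partition.ext
  rw [hp, hp', e, e', e1]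

/-- `SExc`, without any hypothesis -/
theorem exc0 : SExc := by
  intro n D hD h
  have hsub : excSet n D ⊆ exc1 n D ∪ exc2 n D ∪ exc3 n D := by
    rintro p ⟨ρ, hp, hle, hc, h1 | h1 | h1⟩
    · exact Or.inl (Or.inl ⟨ρ, hp, hc, h1⟩)
    · obtain ⟨x, hx, hDx⟩ := h1
      obtain ⟨σ, rfl⟩ := exists_cons_of_mem hx
      refine Or.inl (Or.inr ⟨σ, x, ?_, hp, ?_⟩)
      · have := hle x hx
        omega
      · rw [card_cons] at hc
        omega
    · exact Or.inr ⟨ρ, hp, h1⟩
  have h1 := exc1_le n D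
  have h2 := exc2_le n D h
  have h3 := exc3_le n D
  have h4 := Set.ncard_le_ncard hsub (Set.toFinite _)
  have h5 := Set.ncard_union_le (exc1 n D ∪ exc2 n D) (exc3 n D)
  have h6 := Set.ncard_union_le (exc1 n D) (exc2 n D)
  have hP := exc_P_pos (n - 3 * D)
  generalize P (n - 3 * D) = Q at *
  have hn : 1 ≤ n := by omega
  nlinarith [Nat.mul_le_mul hn hP]

theorem exc (_hm : SMono) : SExc := exc0

end Pool.Agent.H95.FX
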