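import Pool.Agent.H95.FX.Stm
import Pool.Agent.H11.TM.F1

/-! T4: graphs -/

set_option autoImplicit false

open Finset

namespace Pool.Agent.H95.FX

open Pool.Agent.H11.TM

theorem dg_eq_ncard {V : Type*} [Fintype V] (G : SimpleGraph V) (v : V) :
    (G.neighborSet v).ncard = dg G v := by
  classical
  unfold dg
  rw [← Set.ncard_coe_finset]
  congr 1
  ext w
  simp

theorem grM_iff (s : Multiset ℕ) : GrM s ↔ Real s := by
  constructor
  · rintro ⟨V, i, G, h⟩
    exact ⟨V, i, G, by rw [← h]; exact Multiset.map_congr rfl (fun v _ => (dg_eq_ncard G v).symm)⟩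
  · rintro ⟨V, i, G, h⟩
    exact ⟨V, i, G, by rw [← h]; exact Multiset.map_congr rfl (fun v _ => dg_eq_ncard G v)⟩

theorem fr_eq (r : List (ℕ × ℕ)) : fr r = (fro r : Multiset ℕ) := by
  induction r with
  | nil => rfl
  | cons x r ih =>
    rw [fr_cons, ih]
    simp only [fro]
    rw [Multiset.map_add, Multiset.map_replicate, Multiset.map_coe, Multiset.coe_card,
      ← Multiset.coe_replicate, Multiset.coe_add, Multiset.cons_coe]

theorem sd_frob (r : List (ℕ × ℕ)) (h : SD r) : Frob r := h

theorem gr : SGr := by
  intro r h hb he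
  rw [grM_iff, ← fr_eq]
  refine f1 r h hb ?_
  rw [sum_fr r h]
  exact he

theorem giso : SIso := by
  intro s h
  rw [grM_iff] at h ⊢
  have := real_pad h 1
  rwa [Multiset.replicate_one, add_comm, Multiset.singleton_add] at this

theorem guniv : SUniv := by
  intro s h
  have h0 := giso s h
  rw [grM_iff] at h0 ⊢
  obtain ⟨V, i, G, hG⟩ := h0
  classical
  have hmem : 0 ∈ (univ : Finset V).val.map (fun v => dg G v) := by
    rw [hG]; exact Multiset.mem_cons_self 0 s
  obtain ⟨v, -, hv⟩ := Multiset.mem_map.mp hmem
  have huniv : (univ : Finset V).val = v ::ₘ ((univ : Finset V).erase v).val := by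
    rw [Finset.erase_val, Multiset.cons_erase]
    exact Finset.mem_univ v
  have ht : ((univ : Finset V).erase v).val.map (fun v => dg G v) = s := by
    rw [huniv, Multiset.map_cons, hv] at hG
    exact (Multiset.cons_inj_right 0).mp hG
  have hcard : Fintype.card V = Multiset.card s + 1 := by
    rw [← Finset.card_univ, ← Finset.card_val, ← Multiset.card_map (fun v => dg G v), hG,
      Multiset.card_cons]
  have hna : ∀ x, ¬ G.Adj x v := by
    intro x hx
    have h2 : 0 < dg G v := by
      unfold dg
      exact card_pos.mpr ⟨x, by simpa using hx.symm⟩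
    omega
  refine ⟨V, i, star G v, ?_⟩
  have hsv : dg (star G v) v = Multiset.card s := by
    have := dg_star_self G v
    omega
  rw [huniv, Multiset.map_cons, hsv]
  congr 1
  conv_rhs => rw [← ht]
  rw [Multiset.map_map]
  apply Multiset.map_congr rfl
  intro x hx
  have hxv : x ≠ v := (Finset.mem_erase.mp (show x ∈ (univ : Finset V).erase v from hx)).1
  rw [dg_star_other G v x hxv, if_neg (hna x)]
  rfl

end Pool.Agent.H95.FX
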