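import Pool.Agent.H95.FX.Stm

/-!
# T7: the numerical inequality (MP_c916f9_co)
-/

set_option autoImplicit false

namespace Pool.Agent.H95.FX

theorem num_log {n : ℕ} (h : 40000 < n) : 10 < Real.log n := by
  have h2 := Real.log_two_gt_d9
  have h1 : Real.log ((2 : ℝ) ^ 15) ≤ Real.log n := by
    apply Real.log_le_log (by norm_num)
    have : (40000 : ℝ) < n := by exact_mod_cast h
    norm_num
    linarith
  rw [Real.log_pow] at h1
  push_cast at h1
  linarith

/-- the elementary consequences of the hypothesis on `D` -/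
theorem num_basic {n D : ℕ} (hn : 2 ≤ n) (h3D : 3 * D < n)
    (hD : 100 * Real.sqrt n * Real.log n ≤ D) :
    40000 < n ∧ 207 < Real.sqrt n ∧ 8 ≤ D := by
  have hn2 : (2 : ℝ) ≤ n := by exact_mod_cast hn
  have hn0 : (0 : ℝ) < n := by linarith
  have hs0 : 0 < Real.sqrt n := Real.sqrt_pos.mpr hn0
  have hss : Real.sqrt n * Real.sqrt n = n := Real.mul_self_sqrt hn0.le
  have h2 := Real.log_two_gt_d9
  have hl : Real.log 2 ≤ Real.log n := Real.log_le_log (by norm_num) hn2
  have h3 : 3 * (D : ℝ) < n := by exact_mod_cast h3D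
  generalize Real.sqrt n = s at *
  generalize Real.log n = l at *
  have h4 : 300 * l < s := by
    by_contra hcon
    push Not at hcon
    nlinarith
  have h5 : 207 < s := by linarith
  refine ⟨?_, h5, ?_⟩
  · have h6 : (40000 : ℝ) < n := by nlinarith
    exact_mod_cast h6
  · have h7 : (8 : ℝ) ≤ D := by nlinarith
    exact_mod_cast h7

/-- the exponent is large enough -/
theorem num_pow {n D L t : ℕ} (hn : 40000 < n) (hs : 207 < Real.sqrt n)
    (hD : 100 * Real.sqrt n * Real.log n ≤ D) (hL : D < 8 * (L + 1))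
    (ht : L + 1 < (t + 1) * (2 * Nat.sqrt n + 2)) : 2 * n ^ 3 ≤ 2 ^ t := by
  have hlog := num_log hn
  have hn0 : (0 : ℝ) < n := by exact_mod_cast (by omega : 0 < n)
  have h2 := Real.log_two_gt_d9
  have h2' := Real.log_two_lt_d9
  have hsq : ((Nat.sqrt n : ℕ) : ℝ) ≤ Real.sqrt n := Real.nat_sqrt_le_real_sqrt
  have hLR : (D : ℝ) < 8 * ((L : ℝ) + 1) := by exact_mod_cast hL
  have htR : (L : ℝ) + 1 < ((t : ℝ) + 1) * (2 * ((Nat.sqrt n : ℕ) : ℝ) + 2) := by exact_mod_cast ht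
  have ht0 : (0 : ℝ) ≤ t := Nat.cast_nonneg t
  have key : 12.5 * Real.log n < ((t : ℝ) + 1) * 2.01 := by
    have h3 : ((t : ℝ) + 1) * (2 * ((Nat.sqrt n : ℕ) : ℝ) + 2) ≤
        ((t : ℝ) + 1) * (2.01 * Real.sqrt n) := by
      apply mul_le_mul_of_nonneg_left _ (by positivity)
      linarith
    have h4 : 12.5 * Real.sqrt n * Real.log n < ((t : ℝ) + 1) * (2.01 * Real.sqrt n) := by
      linarith
    have h5 : (12.5 * Real.log n) * Real.sqrt n < (((t : ℝ) + 1) * 2.01) * Real.sqrt n := by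
      linarith
    exact lt_of_mul_lt_mul_right h5 (by positivity)
  have h6 : Real.log (2 * (n : ℝ) ^ 3) ≤ Real.log ((2 : ℝ) ^ t) := by
    rw [Real.log_mul (by norm_num) (by positivity), Real.log_pow, Real.log_pow]
    push_cast
    nlinarith
  have h7 : (2 * (n : ℝ) ^ 3) ≤ (2 : ℝ) ^ t :=
    (Real.log_le_log_iff (by positivity) (by positivity)).mp h6
  exact_mod_cast h7

theorem num_Ppos (hm : SMono) (m : ℕ) : 1 ≤ P m := by
  have h0 : P 0 = 1 := by
    unfold P
    rw [Nat.card_eq_fintype_card]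
    decide
  have := hm 0 m (Nat.zero_le m)
  omega

/-- the final comparison -/
theorem num_final {n N L M Q T : ℕ} (hn : 3 ≤ n) (hL : 24 * L < n) (hN : N ≤ n) (hM : 1 ≤ M)
    (hQ : Q ≤ M) (hT : 2 * n ^ 3 * M ≤ T) :
    2 * N * M + (2 * L + 1) * (N + 1) + (2 * L + 1) * L * (13 * n * Q) ≤ T := by
  have e1 : 2 * N * M ≤ 2 * n * M := by gcongr
  have e2 : (2 * L + 1) * (N + 1) ≤ n * (n + 1) * M := by
    calc (2 * L + 1) * (N + 1) ≤ n * (n + 1) := by
          apply Nat.mul_le_mul <;> omega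
      _ ≤ n * (n + 1) * M := Nat.le_mul_of_pos_right _ hM
  have e3 : (2 * L + 1) * L * (13 * n * Q) ≤ n ^ 3 * M := by
    have e4 : 24 * ((2 * L + 1) * L * (13 * n * Q)) ≤ 24 * (n ^ 3 * M) := by
      calc 24 * ((2 * L + 1) * L * (13 * n * Q)) = (2 * L + 1) * (24 * L) * (13 * n * Q) := by ring
        _ ≤ n * n * (24 * n * M) := by
            gcongr
            · omega
            · omega
        _ = 24 * (n ^ 3 * M) := by ring
    exact Nat.le_of_mul_le_mul_left e4 (by norm_num)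
  have e5 : 2 * n * M + n * (n + 1) * M ≤ n ^ 3 * M := by
    have : 2 * n + n * (n + 1) ≤ n ^ 3 := by
      obtain ⟨k, rfl⟩ := Nat.exists_eq_add_of_le hn
      ring_nf
      nlinarith
    calc 2 * n * M + n * (n + 1) * M = (2 * n + n * (n + 1)) * M := by ring
      _ ≤ n ^ 3 * M := Nat.mul_le_mul_right _ this
  have e6 : 2 * n ^ 3 * M = n ^ 3 * M + n ^ 3 * M := by ring
  omega

theorem num (hm : SMono) (hp : SPow) : SNum := by
  intro n D hn h3D hD
  obtain ⟨hn4, hs, hD8⟩ := num_basic hn h3D hD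
  refine ⟨by omega, ?_⟩
  rintro L N hL hN
  have h8 : 8 * L ≤ D := by rw [hL]; exact Nat.mul_div_le D 8
  have h8' : D < 8 * (L + 1) := by omega
  have hL1 : 1 ≤ L := by omega
  have hLN : L + 1 ≤ N := by omega
  refine ⟨hLN, ?_⟩
  have hJ0 : 1 ≤ 2 * Nat.sqrt n + 2 := by omega
  have hJ : 4 * N ≤ (2 * Nat.sqrt n + 2) * (2 * Nat.sqrt n + 2 + 1) := by
    have h1 := Nat.lt_succ_sqrt n
    have h2 : N ≤ n := by omega
    rw [Nat.succ_eq_add_one] at h1
    nlinarith
  generalize hJe : 2 * Nat.sqrt n + 2 = J at *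
  have ht1 : (L + 1) / J * J ≤ L + 1 := Nat.div_mul_le_self _ _
  have ht2 : L + 1 < ((L + 1) / J + 1) * J := by
    rw [Nat.add_mul, one_mul]
    exact Nat.lt_div_mul_add (by omega)
  have hpow : 2 * n ^ 3 ≤ 2 ^ ((L + 1) / J) := by
    apply num_pow hn4 hs hD h8'
    rw [hJe]
    exact ht2
  generalize (L + 1) / J = t at *
  have h1 := hp t J N hJ0 (by omega) hJ
  have h2 : P (N - L - 1) ≤ P (N - t * J) := hm _ _ (by omega)
  have h3 : P (n - 3 * D) ≤ P (N - L - 1) := hm _ _ (by omega)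
  apply num_final (by omega) (by omega) (by omega) (num_Ppos hm _) h3
  calc 2 * n ^ 3 * P (N - L - 1) ≤ 2 ^ t * P (N - t * J) := Nat.mul_le_mul hpow h2
    _ ≤ P N := h1

end Pool.Agent.H95.FX
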