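import Pool.Agent.H95.FX.Stm

/-!
# Growth of the partition function (project TM+, piece T2)

Monotonicity, `J (J + 1) P(N - J) ≤ 2 N P(N)`, and the iterated form.
-/

namespace Pool.Agent.H95.FX

/-- add the part `j` to a partition of `N - j` -/
private def ratioAdd {N j : ℕ} (hj : 1 ≤ j) (hN : j ≤ N) (q : Nat.Partition (N - j)) :
    Nat.Partition N where
  parts := j ::ₘ q.parts
  parts_pos := by
    intro i hi
    rw [Multiset.mem_cons] at hi
    rcases hi with rfl | hi
    · exact hj
    · exact q.parts_pos hi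
  parts_sum := by
    rw [Multiset.sum_cons, q.parts_sum]
    omega

private theorem ratioAdd_inj {N j : ℕ} (hj : 1 ≤ j) (hN : j ≤ N) :
    Function.Injective (ratioAdd hj hN) := by
  intro q q' h
  have h1 : j ::ₘ q.parts = j ::ₘ q'.parts := congrArg Nat.Partition.parts h
  exact Nat.Partition.ext ((Multiset.cons_inj_right j).1 h1)

private theorem ratio_P_eq (n : ℕ) : P n = Fintype.card (Nat.Partition n) :=
  Nat.card_eq_fintype_card

private theorem ratio_P_succ (n : ℕ) : P n ≤ P (n + 1) := by
  have h := Fintype.card_le_of_injective _ (ratioAdd_inj (N := n + 1) (j := 1) le_rfl (by omega))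
  rw [ratio_P_eq, ratio_P_eq]
  exact h

theorem mono : SMono := fun _ _ h => monotone_nat_of_le_succ ratio_P_succ h

/-- at least `P (N - j)` partitions of `N` contain the part `j` -/
private theorem ratio_contain {N j : ℕ} (hj : 1 ≤ j) (hN : j ≤ N) :
    P (N - j) ≤ (Finset.univ.filter (fun p : Nat.Partition N => j ∈ p.parts)).card := by
  classical
  rw [ratio_P_eq, ← Finset.card_univ]
  apply Finset.card_le_card_of_injOn (ratioAdd hj hN)
  · intro q _
    rw [Finset.mem_coe, Finset.mem_filter]
    exact ⟨Finset.mem_univ _, Multiset.mem_cons_self _ _⟩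
  · exact (ratioAdd_inj hj hN).injOn

/-- the sum of the distinct parts is at most `N` -/
private theorem ratio_distinct {N : ℕ} (p : Nat.Partition N) (J : ℕ) :
    ∑ j ∈ (Finset.Icc 1 J).filter (fun j => j ∈ p.parts), j ≤ N := by
  classical
  have h1 : ∑ j ∈ (Finset.Icc 1 J).filter (fun j => j ∈ p.parts), j
      ≤ ∑ j ∈ p.parts.toFinset, j := by
    apply Finset.sum_le_sum_of_subset
    intro j hj
    rw [Finset.mem_filter] at hj
    exact Multiset.mem_toFinset.2 hj.2
  have h2 : ∑ j ∈ p.parts.toFinset, j ≤ p.parts.sum := by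
    rw [Finset.sum_multiset_count]
    apply Finset.sum_le_sum
    intro j hj
    have : 1 ≤ p.parts.count j := Multiset.one_le_count_iff_mem.2 (Multiset.mem_toFinset.1 hj)
    rw [smul_eq_mul]
    exact Nat.le_mul_of_pos_left _ this
  rw [p.parts_sum] at h2
  exact h1.trans h2

theorem ratio : SRatio := by
  classical
  intro J N hJN
  have h1 : ∑ j ∈ Finset.Icc 1 J, j * P (N - J) ≤
      ∑ j ∈ Finset.Icc 1 J, j * (Finset.univ.filter (fun p : Nat.Partition N => j ∈ p.parts)).card := by
    apply Finset.sum_le_sum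
    intro j hj
    rw [Finset.mem_Icc] at hj
    apply Nat.mul_le_mul_left
    exact (mono _ _ (by omega)).trans (ratio_contain hj.1 (hj.2.trans hJN))
  have h2 : ∑ j ∈ Finset.Icc 1 J,
        j * (Finset.univ.filter (fun p : Nat.Partition N => j ∈ p.parts)).card
      = ∑ p : Nat.Partition N, ∑ j ∈ (Finset.Icc 1 J).filter (fun j => j ∈ p.parts), j := by
    have e1 : ∀ j ∈ Finset.Icc 1 J,
        j * (Finset.univ.filter (fun p : Nat.Partition N => j ∈ p.parts)).card
        = ∑ p : Nat.Partition N, if j ∈ p.parts then j else 0 := by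
      intro j _
      rw [← Finset.sum_filter, Finset.sum_const, smul_eq_mul, mul_comm]
    rw [Finset.sum_congr rfl e1, Finset.sum_comm]
    refine Finset.sum_congr rfl fun p _ => ?_
    rw [Finset.sum_filter]
  have h3 : ∑ p : Nat.Partition N, ∑ j ∈ (Finset.Icc 1 J).filter (fun j => j ∈ p.parts), j
      ≤ P N * N := by
    calc ∑ p : Nat.Partition N, ∑ j ∈ (Finset.Icc 1 J).filter (fun j => j ∈ p.parts), j
        ≤ ∑ _p : Nat.Partition N, N := Finset.sum_le_sum fun p _ => ratio_distinct p J
      _ = P N * N := by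
          rw [Finset.sum_const, smul_eq_mul, Finset.card_univ, ratio_P_eq]
  have h4 : 2 * ∑ j ∈ Finset.Icc 1 J, j * P (N - J) = J * (J + 1) * P (N - J) := by
    rw [← Finset.sum_mul, ← mul_assoc]
    congr 1
    clear h1 h2 h3 hJN
    induction J with
    | zero => simp
    | succ J ih =>
      rw [Finset.sum_Icc_succ_top (by omega), mul_add, ih]
      ring
  rw [← h4]
  rw [h2] at h1
  have h5 := h1.trans h3
  calc 2 * ∑ j ∈ Finset.Icc 1 J, j * P (N - J) ≤ 2 * (P N * N) := Nat.mul_le_mul_left _ h5
    _ = 2 * N * P N := by ring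

theorem powP (_h : SMono) (h2 : SRatio) : SPow := by
  intro t
  induction t with
  | zero =>
    intro J N _ _ _
    simp
  | succ t ih =>
    intro J N hJ htJ h4
    have htJ' : t * J + J ≤ N := by
      have : (t + 1) * J = t * J + J := by ring
      omega
    have h5 := ih J N hJ (by omega) h4
    have h6 := h2 J (N - t * J) (by omega)
    have hN : 1 ≤ N := by omega
    have e1 : N - (t + 1) * J = N - t * J - J := by
      have : (t + 1) * J = t * J + J := by ring
      omega
    rw [e1]
    have h7 : 2 * P (N - t * J - J) ≤ P (N - t * J) := by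
      have h8 : 4 * N * P (N - t * J - J) ≤ 2 * N * P (N - t * J) := by
        calc 4 * N * P (N - t * J - J) ≤ J * (J + 1) * P (N - t * J - J) :=
              Nat.mul_le_mul_right _ h4
          _ ≤ 2 * (N - t * J) * P (N - t * J) := h6
          _ ≤ 2 * N * P (N - t * J) := by
              apply Nat.mul_le_mul_right
              omega
      have h9 : (2 * N) * (2 * P (N - t * J - J)) ≤ (2 * N) * P (N - t * J) := by
        calc (2 * N) * (2 * P (N - t * J - J)) = 4 * N * P (N - t * J - J) := by ring
          _ ≤ _ := h8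
      exact Nat.le_of_mul_le_mul_left h9 (by omega)
    calc 2 ^ (t + 1) * P (N - t * J - J) = 2 ^ t * (2 * P (N - t * J - J)) := by ring
      _ ≤ 2 ^ t * P (N - t * J) := Nat.mul_le_mul_left _ h7
      _ ≤ P N := h5

end Pool.Agent.H95.FX
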