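import Mathlib
import Pool.Agent.H95.FX.Stm

/-!
# T1: rotation lemma
-/

namespace Pool.Agent.H95.FX

/-- excess of the prefix of length `k` -/
def pexc (W : List Bool) (k : ℕ) : ℤ := ((W.take k).count true : ℤ) - ((W.take k).count false : ℤ)

theorem rot_cyc (W : List Bool) (h : W.count true = W.count false) :
    ∃ k ≤ W.length, ∀ j,
      ((W.rotate k).take j).count false ≤ ((W.rotate k).take j).count true := by
  obtain ⟨k, hk, hmin⟩ := Finset.exists_min_image (Finset.range (W.length + 1)) (pexc W)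
    ⟨0, by simp⟩
  have hk' : k ≤ W.length := by simpa [Nat.lt_succ_iff] using hk
  refine ⟨k, hk', fun j => ?_⟩
  rw [List.rotate_eq_drop_append_take hk']
  have hall : ∀ i, pexc W k ≤ pexc W i := by
    intro i
    by_cases hi : i ≤ W.length
    · exact hmin i (by simpa [Nat.lt_succ_iff] using hi)
    · have h1 : pexc W i = pexc W W.length := by
        unfold pexc
        rw [List.take_of_length_le (by omega), List.take_length]
      rw [h1]
      exact hmin _ (by simp)
  have hd1 : W.count true = (W.take k).count true + (W.drop k).count true := by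
    conv_lhs => rw [← List.take_append_drop k W, List.count_append]
  have hd2 : W.count false = (W.take k).count false + (W.drop k).count false := by
    conv_lhs => rw [← List.take_append_drop k W, List.count_append]
  rcases le_total j (W.length - k) with hj | hj
  · rw [List.take_append_of_le_length (by simpa using hj)]
    have h1 := hall (k + j)
    have h2 : W.take (k + j) = W.take k ++ (W.drop k).take j := List.take_add
    unfold pexc at h1
    rw [h2, List.count_append, List.count_append] at h1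
    push_cast at h1
    omega
  · rw [List.take_append, List.take_of_length_le (by simpa using hj), List.take_take,
      List.count_append, List.count_append]
    have h1 := hall (min (j - (W.drop k).length) k)
    unfold pexc at h1
    omega

theorem rot_sorted_eq {l l' : List ℕ} (h : l.Pairwise (fun x y => y < x))
    (h' : l'.Pairwise (fun x y => y < x)) (hm : ∀ x, x ∈ l ↔ x ∈ l') : l = l' := by
  have hn : l.Nodup := h.imp (fun hxy => ne_of_gt hxy)
  have hn' : l'.Nodup := h'.imp (fun hxy => ne_of_gt hxy)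
  have hp : l.Perm l' := (List.perm_ext_iff_of_nodup hn hn').2 hm
  exact hp.eq_of_pairwise (fun a b _ _ h1 h2 => absurd h1 (by omega)) h h'

theorem SD_fst {r : List (ℕ × ℕ)} (h : SD r) : (r.map Prod.fst).Pairwise (fun x y => y < x) := by
  rw [List.pairwise_map]
  exact h.imp (fun hxy => hxy.1)

theorem SD_snd {r : List (ℕ × ℕ)} (h : SD r) : (r.map Prod.snd).Pairwise (fun x y => y < x) := by
  rw [List.pairwise_map]
  exact h.imp (fun hxy => hxy.2)

theorem rot_eq {r r' : List (ℕ × ℕ)} (h : SD r) (h' : SD r')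
    (h1 : (r.map Prod.fst).toFinset = (r'.map Prod.fst).toFinset)
    (h2 : (r.map Prod.snd).toFinset = (r'.map Prod.snd).toFinset) : r = r' := by
  have e1 : r.map Prod.fst = r'.map Prod.fst := by
    apply rot_sorted_eq (SD_fst h) (SD_fst h')
    intro x
    have := congrArg (fun s => x ∈ s) h1
    simpa using this
  have e2 : r.map Prod.snd = r'.map Prod.snd := by
    apply rot_sorted_eq (SD_snd h) (SD_snd h')
    intro x
    have := congrArg (fun s => x ∈ s) h2
    simpa using this
  have e3 : ∀ s : List (ℕ × ℕ), s = (s.map Prod.fst).zip (s.map Prod.snd) := by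
    intro s
    induction s with
    | nil => rfl
    | cons x s ih => simp [← ih]
  rw [e3 r, e3 r', e1, e2]

/-- building a symbol from two sets -/
theorem rot_mk (A B : Finset ℕ) (h : A.card = B.card) :
    ∃ r : List (ℕ × ℕ), SD r ∧ (r.map Prod.fst).toFinset = A ∧ (r.map Prod.snd).toFinset = B := by
  obtain ⟨l, hl, hlA⟩ : ∃ l : List ℕ, l.Pairwise (fun x y => y < x) ∧ l.toFinset = A :=
    ⟨(A.sort (· ≥ ·)), by
      have h1 := Finset.sort_nodup A (· ≥ ·)
      have h2 := Finset.pairwise_sort A (· ≥ ·)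
      exact (List.Pairwise.and h1 h2).imp (fun hxy => lt_of_le_of_ne hxy.2 (Ne.symm hxy.1)),
      Finset.sort_toFinset _ _⟩
  obtain ⟨l', hl', hlB⟩ : ∃ l : List ℕ, l.Pairwise (fun x y => y < x) ∧ l.toFinset = B :=
    ⟨(B.sort (· ≥ ·)), by
      have h1 := Finset.sort_nodup B (· ≥ ·)
      have h2 := Finset.pairwise_sort B (· ≥ ·)
      exact (List.Pairwise.and h1 h2).imp (fun hxy => lt_of_le_of_ne hxy.2 (Ne.symm hxy.1)),
      Finset.sort_toFinset _ _⟩
  have hn : l.Nodup := hl.imp (fun hxy => ne_of_gt hxy)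
  have hn' : l'.Nodup := hl'.imp (fun hxy => ne_of_gt hxy)
  have hlen : l.length = l'.length := by
    rw [← List.toFinset_card_of_nodup hn, ← List.toFinset_card_of_nodup hn', hlA, hlB, h]
  refine ⟨l.zip l', ?_, ?_, ?_⟩
  · unfold SD
    rw [List.pairwise_iff_getElem] at hl hl' ⊢
    intro i j hi hj hij
    simp only [List.length_zip] at hi hj
    simp only [List.getElem_zip]
    exact ⟨hl i j (by omega) (by omega) hij, hl' i j (by omega) (by omega) hij⟩
  · rw [List.map_fst_zip (by omega), hlA]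
  · rw [List.map_snd_zip (by omega), hlB]

/-- domination -/
theorem rot_dom {r : List (ℕ × ℕ)} (h : SD r)
    (hd : ∀ t, (r.map Prod.fst).countP (fun x => decide (t ≤ x)) ≤
      (r.map Prod.snd).countP (fun x => decide (t ≤ x))) : ∀ x ∈ r, x.1 ≤ x.2 := by
  intro x hx
  by_contra hlt
  push Not at hlt
  obtain ⟨s, t, rfl⟩ := List.append_of_mem hx
  have h1 := hd x.1
  unfold SD at h
  rw [List.pairwise_append] at h
  obtain ⟨hs, ht, hst⟩ := h
  rw [List.pairwise_cons] at ht
  obtain ⟨ht1, ht2⟩ := ht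
  simp only [List.map_append, List.map_cons, List.countP_append, List.countP_cons] at h1
  have e1 : (s.map Prod.fst).countP (fun y => decide (x.1 ≤ y)) = s.length := by
    rw [← List.length_map (f := Prod.fst)]
    rw [List.countP_eq_length]
    intro a ha
    obtain ⟨b, hb, rfl⟩ := List.mem_map.1 ha
    have := (hst b hb x (by simp)).1
    simpa using this.le
  have e2 : (s.map Prod.snd).countP (fun y => decide (x.1 ≤ y)) ≤ s.length := by
    refine (List.countP_le_length).trans ?_
    simp
  have e3 : (t.map Prod.snd).countP (fun y => decide (x.1 ≤ y)) = 0 := by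
    rw [List.countP_eq_zero]
    intro a ha
    obtain ⟨b, hb, rfl⟩ := List.mem_map.1 ha
    have := (ht1 b hb).2
    simp only [decide_eq_true_eq]
    omega
  have e4 : decide (x.1 ≤ x.1) = true := by simp
  have e5 : decide (x.1 ≤ x.2) = false := by simpa using hlt
  rw [e1, e3, e4, e5] at h1
  simp only [if_true, Bool.false_eq_true, if_false] at h1
  omega

theorem rot_mass {r : List (ℕ × ℕ)} (h : SD r) :
    mass r = (r.map Prod.fst).toFinset.sum id + (r.map Prod.snd).toFinset.sum id +
      (r.map Prod.fst).toFinset.card := by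
  have hn : (r.map Prod.fst).Nodup := (SD_fst h).imp (fun hxy => ne_of_gt hxy)
  have hn' : (r.map Prod.snd).Nodup := (SD_snd h).imp (fun hxy => ne_of_gt hxy)
  rw [List.sum_toFinset _ hn, List.sum_toFinset _ hn', List.toFinset_card_of_nodup hn]
  simp only [List.map_id, List.length_map]
  unfold mass
  clear hn hn' h
  induction r with
  | nil => simp
  | cons x r ih =>
    simp only [List.map_cons, List.sum_cons, List.length_cons, ih]
    omega

theorem rot_card {r : List (ℕ × ℕ)} (h : SD r) :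
    (r.map Prod.fst).toFinset.card = (r.map Prod.snd).toFinset.card := by
  have hn : (r.map Prod.fst).Nodup := (SD_fst h).imp (fun hxy => ne_of_gt hxy)
  have hn' : (r.map Prod.snd).Nodup := (SD_snd h).imp (fun hxy => ne_of_gt hxy)
  rw [List.toFinset_card_of_nodup hn, List.toFinset_card_of_nodup hn']
  simp

theorem rot_countP {l : List ℕ} (h : l.Pairwise (fun x y => y < x)) (t : ℕ) :
    l.countP (fun x => decide (t ≤ x)) = (l.toFinset.filter (fun x => t ≤ x)).card := by
  have hn : l.Nodup := h.imp (fun hxy => ne_of_gt hxy)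
  rw [List.countP_eq_length_filter, ← List.toFinset_card_of_nodup (hn.filter _),
    List.toFinset_filter]
  simp

theorem rot_cntT {V : List ℕ} (hV : V.Nodup) (β : Finset ℕ) :
    (V.map (fun d => decide (d ∈ β))).count true = (V.toFinset.filter (fun d => d ∈ β)).card := by
  rw [List.count, List.countP_map, List.countP_eq_length_filter,
    ← List.toFinset_card_of_nodup (hV.filter _), List.toFinset_filter]
  congr 1
  ext x
  simp

theorem rot_cntF {V : List ℕ} (hV : V.Nodup) (β : Finset ℕ) :
    (V.map (fun d => decide (d ∈ β))).count false = (V.toFinset.filter (fun d => d ∉ β)).card := by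
  rw [List.count, List.countP_map, List.countP_eq_length_filter,
    ← List.toFinset_card_of_nodup (hV.filter _), List.toFinset_filter]
  congr 1
  ext x
  simp

theorem rot_pre (U : List ℕ) (h : U.Pairwise (fun x y => y < x)) (t : ℕ) :
    ∃ j, U.filter (fun x => decide (t ≤ x)) = U.take j := by
  induction U with
  | nil => exact ⟨0, by simp⟩
  | cons u U ih =>
    rw [List.pairwise_cons] at h
    by_cases hu : t ≤ u
    · obtain ⟨j, hj⟩ := ih h.2
      exact ⟨j + 1, by rw [List.filter_cons_of_pos (by simpa using hu), hj, List.take_succ_cons]⟩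
    · refine ⟨0, ?_⟩
      rw [List.take_zero, List.filter_eq_nil_iff]
      intro a ha
      rcases List.mem_cons.1 ha with rfl | ha
      · simpa using hu
      · have := h.1 a ha
        simp only [decide_eq_true_eq]
        omega

theorem rot_sel (U : List ℕ) (hU : U.Nodup) (W : List Bool) (hW : W.length = U.length) :
    ∃ β : Finset ℕ, β ⊆ U.toFinset ∧ U.map (fun d => decide (d ∈ β)) = W := by
  refine ⟨U.toFinset.filter (fun d => W.getD (U.idxOf d) false = true),
    Finset.filter_subset _ _, ?_⟩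
  apply List.ext_getElem
  · simp [hW]
  · intro i h1 h2
    have h3 : i < U.length := by simpa using h1
    rw [List.getElem_map]
    have h4 : U.idxOf U[i] = i := hU.idxOf_getElem i h3
    have h5 : W.getD i false = W[i] := by
      rw [List.getD_eq_getElem _ _ h2]
    have h6 : U[i] ∈ U := List.getElem_mem h3
    simp only [Finset.mem_filter, List.mem_toFinset, h6, true_and, h4, h5]
    cases W[i] <;> simp

theorem rot_prop1 {u a1 b1 a2 b2 : Prop} (n1 : u ↔ (a1 ∧ ¬ b1) ∨ (b1 ∧ ¬ a1))
    (n2 : u ↔ (a2 ∧ ¬ b2) ∨ (b2 ∧ ¬ a2)) (n3 : (a1 ∧ b1) ↔ (a2 ∧ b2)) (n4 : u → (b1 ↔ b2)) :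
    (a1 ↔ a2) ∧ (b1 ↔ b2) := by
  by_cases h1 : a1 <;> by_cases h2 : b1 <;> by_cases h3 : a2 <;> by_cases h4 : b2 <;> simp_all

theorem rot_prop2 {a b c : Prop} (h : c → (a ∧ ¬ b) ∨ (b ∧ ¬ a)) :
    ((a ∧ ¬ b) ∨ (b ∧ ¬ a)) ↔
      ((((a ∧ b) ∨ (((a ∧ ¬ b) ∨ (b ∧ ¬ a)) ∧ ¬ c)) ∧ ¬ ((a ∧ b) ∨ c)) ∨
        (((a ∧ b) ∨ c) ∧ ¬ ((a ∧ b) ∨ (((a ∧ ¬ b) ∨ (b ∧ ¬ a)) ∧ ¬ c)))) := by
  by_cases h1 : a <;> by_cases h2 : b <;> by_cases h3 : c <;> simp_all

theorem rot_prop3 {a b c : Prop} (h : c → (a ∧ ¬ b) ∨ (b ∧ ¬ a)) :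
    (a ∧ b) ↔ (((a ∧ b) ∨ (((a ∧ ¬ b) ∨ (b ∧ ¬ a)) ∧ ¬ c)) ∧ ((a ∧ b) ∨ c)) := by
  by_cases h1 : a <;> by_cases h2 : b <;> by_cases h3 : c <;> simp_all

/-- the relation between a symbol and its rotation -/
def RotRel (r r' : List (ℕ × ℕ)) (k : ℕ) : Prop :=
  ∃ (U : List ℕ) (C : Finset ℕ),
    U.Pairwise (fun x y => y < x) ∧
    U.toFinset = symmDiff (r'.map Prod.fst).toFinset (r'.map Prod.snd).toFinset ∧
    C = (r'.map Prod.fst).toFinset ∩ (r'.map Prod.snd).toFinset ∧
    U.toFinset = symmDiff (r.map Prod.fst).toFinset (r.map Prod.snd).toFinset ∧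
    C = (r.map Prod.fst).toFinset ∩ (r.map Prod.snd).toFinset ∧
    (U.map (fun d => decide (d ∈ (r.map Prod.snd).toFinset))).rotate k =
      U.map (fun d => decide (d ∈ (r'.map Prod.snd).toFinset))

theorem rot_inj {r₁ r₂ r' : List (ℕ × ℕ)} {k : ℕ} (h₁ : SD r₁) (h₂ : SD r₂)
    (H₁ : RotRel r₁ r' k) (H₂ : RotRel r₂ r' k) : r₁ = r₂ := by
  obtain ⟨U, C, hU, a1, a2, a3, a4, a5⟩ := H₁
  obtain ⟨U', C', hU', b1, b2, b3, b4, b5⟩ := H₂
  have hUU : U = U' := by
    apply rot_sorted_eq hU hU'
    intro x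
    have := congrArg (fun s => x ∈ s) (a1.trans b1.symm)
    simpa using this
  subst hUU
  have hCC : C = C' := a2.trans b2.symm
  subst hCC
  have hW := List.rotate_injective k (a5.trans b5.symm)
  rw [List.map_inj_left] at hW
  have m1 : ∀ x, x ∈ U ↔ (x ∈ (r₁.map Prod.fst).toFinset ∧ x ∉ (r₁.map Prod.snd).toFinset) ∨
      (x ∈ (r₁.map Prod.snd).toFinset ∧ x ∉ (r₁.map Prod.fst).toFinset) := by
    intro x
    rw [← List.mem_toFinset, a3, Finset.mem_symmDiff]
  have m2 : ∀ x, x ∈ U ↔ (x ∈ (r₂.map Prod.fst).toFinset ∧ x ∉ (r₂.map Prod.snd).toFinset) ∨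
      (x ∈ (r₂.map Prod.snd).toFinset ∧ x ∉ (r₂.map Prod.fst).toFinset) := by
    intro x
    rw [← List.mem_toFinset, b3, Finset.mem_symmDiff]
  have m3 : ∀ x, (x ∈ (r₁.map Prod.fst).toFinset ∧ x ∈ (r₁.map Prod.snd).toFinset) ↔
      (x ∈ (r₂.map Prod.fst).toFinset ∧ x ∈ (r₂.map Prod.snd).toFinset) := by
    intro x
    rw [← Finset.mem_inter, ← Finset.mem_inter, ← a4, ← b4]
  have m4 : ∀ x ∈ U, (x ∈ (r₁.map Prod.snd).toFinset ↔ x ∈ (r₂.map Prod.snd).toFinset) := by
    intro x hx
    exact decide_eq_decide.1 (hW x hx)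
  apply rot_eq h₁ h₂
  · ext x
    exact (rot_prop1 (m1 x) (m2 x) (m3 x) (m4 x)).1
  · ext x
    exact (rot_prop1 (m1 x) (m2 x) (m3 x) (m4 x)).2

theorem rot_ex {L N : ℕ} {r : List (ℕ × ℕ)} (hr : r ∈ symSet L N) :
    ∃ r' k, r' ∈ domSet L N ∧ k < 2 * L + 1 ∧ RotRel r r' k := by
  obtain ⟨hSD, hmass, hL⟩ := hr
  have hcardAB := rot_card hSD
  have hmass' := rot_mass hSD
  have hAL : ∀ x ∈ (r.map Prod.fst).toFinset, x < L := by
    intro x hx
    rw [List.mem_toFinset, List.mem_map] at hx
    obtain ⟨y, hy, rfl⟩ := hx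
    exact (hL y hy).1
  have hBL : ∀ x ∈ (r.map Prod.snd).toFinset, x < L := by
    intro x hx
    rw [List.mem_toFinset, List.mem_map] at hx
    obtain ⟨y, hy, rfl⟩ := hx
    exact (hL y hy).2
  unfold RotRel
  generalize (r.map Prod.fst).toFinset = A at *
  generalize (r.map Prod.snd).toFinset = B at *
  obtain ⟨U, hU, hUD⟩ : ∃ l : List ℕ, l.Pairwise (fun x y => y < x) ∧
      l.toFinset = symmDiff A B :=
    ⟨((symmDiff A B).sort (· ≥ ·)), by
      have h1 := Finset.sort_nodup (symmDiff A B) (· ≥ ·)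
      have h2 := Finset.pairwise_sort (symmDiff A B) (· ≥ ·)
      exact (List.Pairwise.and h1 h2).imp (fun hxy => lt_of_le_of_ne hxy.2 (Ne.symm hxy.1)),
      Finset.sort_toFinset _ _⟩
  have hUn : U.Nodup := hU.imp (fun hxy => ne_of_gt hxy)
  have hUm : ∀ x, x ∈ U ↔ (x ∈ A ∧ x ∉ B) ∨ (x ∈ B ∧ x ∉ A) := by
    intro x
    rw [← List.mem_toFinset, hUD, Finset.mem_symmDiff]
  have hBA : (symmDiff A B).filter (fun d => d ∈ B) = B \ A := by
    ext x
    simp only [Finset.mem_filter, Finset.mem_symmDiff, Finset.mem_sdiff]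
    tauto
  have hAB : (symmDiff A B).filter (fun d => d ∉ B) = A \ B := by
    ext x
    simp only [Finset.mem_filter, Finset.mem_symmDiff, Finset.mem_sdiff]
    tauto
  have hcT := rot_cntT hUn B
  have hcF := rot_cntF hUn B
  rw [hUD, hBA] at hcT
  rw [hUD, hAB] at hcF
  have hcc : (A \ B).card = (B \ A).card := Finset.card_sdiff_comm hcardAB
  obtain ⟨k, hk, hpre⟩ := rot_cyc (U.map (fun d => decide (d ∈ B))) (by rw [hcT, hcF, hcc])
  obtain ⟨β, hβ, hβW⟩ := rot_sel U hUn ((U.map (fun d => decide (d ∈ B))).rotate k) (by simp)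
  have hβm : ∀ x ∈ β, x ∈ U := fun x hx => List.mem_toFinset.1 (hβ hx)
  have hdT := rot_cntT hUn β
  have hdF := rot_cntF hUn β
  rw [hβW, (List.rotate_perm _ k).count_eq, hcT] at hdT
  rw [hβW, (List.rotate_perm _ k).count_eq, hcF] at hdF
  have hf1 : U.toFinset.filter (fun d => d ∈ β) = β := by
    ext x
    simp only [Finset.mem_filter, List.mem_toFinset]
    exact ⟨fun h => h.2, fun h => ⟨hβm x h, h⟩⟩
  have hf2 : U.toFinset.filter (fun d => d ∉ β) = symmDiff A B \ β := by
    ext x
    simp only [Finset.mem_filter, hUD, Finset.mem_sdiff]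
  rw [hf1] at hdT
  rw [hf2] at hdF
  have hdis1 : Disjoint (A ∩ B) β := by
    rw [Finset.disjoint_left]
    intro x hx hxβ
    have h1 := hβm x hxβ
    rw [hUm] at h1
    rw [Finset.mem_inter] at hx
    tauto
  have hdis2 : Disjoint (A ∩ B) (symmDiff A B \ β) := by
    rw [Finset.disjoint_left]
    intro x hx hxβ
    rw [Finset.mem_sdiff, Finset.mem_symmDiff] at hxβ
    rw [Finset.mem_inter] at hx
    tauto
  obtain ⟨r', hSD', hA', hB'⟩ := rot_mk (A ∩ B ∪ (symmDiff A B \ β)) (A ∩ B ∪ β) (by
    rw [Finset.card_union_of_disjoint hdis1, Finset.card_union_of_disjoint hdis2, ← hdT, ← hdF,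
      hcc])
  refine ⟨r', k, ⟨⟨hSD', ?_, ?_⟩, ?_⟩, ?_, U, A ∩ B, hU, ?_, ?_, hUD, rfl, ?_⟩
  · -- mass
    have e1 : (A ∩ B ∪ β).sum id = (A ∩ B).sum id + β.sum id := Finset.sum_union hdis1
    have e2 : (A ∩ B ∪ (symmDiff A B \ β)).sum id =
        (A ∩ B).sum id + (symmDiff A B \ β).sum id := Finset.sum_union hdis2
    rw [rot_mass hSD', hA', hB', e1, e2, Finset.card_union_of_disjoint hdis2, ← hdF]
    have s1 : (symmDiff A B \ β).sum id + β.sum id = (symmDiff A B).sum id :=
      Finset.sum_sdiff (by rw [← hUD]; exact hβ)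
    have s2 : (symmDiff A B).sum id = (A \ B).sum id + (B \ A).sum id := by
      rw [← Finset.sum_union disjoint_sdiff_sdiff]
      rfl
    have s3 : (A ∩ B).sum id + (A \ B).sum id = A.sum id := Finset.sum_inter_add_sum_sdiff A B id
    have s4 : (B ∩ A).sum id + (B \ A).sum id = B.sum id := Finset.sum_inter_add_sum_sdiff B A id
    have s5 : (A ∩ B).card + (A \ B).card = A.card := Finset.card_inter_add_card_sdiff A B
    rw [Finset.inter_comm] at s4
    omega
  · -- entries
    intro x hx
    have hx1 : x.1 ∈ A ∩ B ∪ (symmDiff A B \ β) := by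
      rw [← hA', List.mem_toFinset]
      exact List.mem_map_of_mem hx
    have hx2 : x.2 ∈ A ∩ B ∪ β := by
      rw [← hB', List.mem_toFinset]
      exact List.mem_map_of_mem hx
    have hU' : ∀ y ∈ symmDiff A B, y < L := by
      intro y hy
      rw [Finset.mem_symmDiff] at hy
      rcases hy with hy | hy
      · exact hAL y hy.1
      · exact hBL y hy.1
    constructor
    · rcases Finset.mem_union.1 hx1 with h | h
      · exact hAL _ (Finset.mem_inter.1 h).1
      · exact hU' _ (Finset.mem_sdiff.1 h).1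
    · rcases Finset.mem_union.1 hx2 with h | h
      · exact hAL _ (Finset.mem_inter.1 h).1
      · exact hU' _ (hUD ▸ hβ h)
  · -- domination
    apply rot_dom hSD'
    intro t
    rw [rot_countP (SD_fst hSD'), rot_countP (SD_snd hSD'), hA', hB', Finset.filter_union,
      Finset.filter_union,
      Finset.card_union_of_disjoint (Finset.disjoint_filter_filter hdis1),
      Finset.card_union_of_disjoint (Finset.disjoint_filter_filter hdis2)]
    apply Nat.add_le_add_left
    obtain ⟨j, hj⟩ := rot_pre U hU t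
    have hp := hpre j
    rw [← hβW, ← List.map_take, ← hj, rot_cntT (hUn.filter _), rot_cntF (hUn.filter _)] at hp
    refine le_trans (le_of_eq ?_) (hp.trans (le_of_eq ?_))
    · congr 1
      ext x
      simp only [Finset.mem_filter, List.mem_toFinset, List.mem_filter, decide_eq_true_eq,
        Finset.mem_sdiff, ← hUD]
      tauto
    · congr 1
      ext x
      simp only [Finset.mem_filter, List.mem_toFinset, List.mem_filter, decide_eq_true_eq]
      have := hβm x
      tauto
  · -- index
    have h1 : U.length ≤ L := by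
      rw [← List.toFinset_card_of_nodup hUn, ← Finset.card_range L]
      apply Finset.card_le_card
      intro y hy
      rw [hUD, Finset.mem_symmDiff] at hy
      rw [Finset.mem_range]
      rcases hy with hy | hy
      · exact hAL y hy.1
      · exact hBL y hy.1
    rw [List.length_map] at hk
    omega
  · rw [hA', hB', hUD]
    ext x
    simp only [Finset.mem_symmDiff, Finset.mem_union, Finset.mem_inter, Finset.mem_sdiff]
    exact rot_prop2 (fun h => (hUm x).1 (hβm x h))
  · rw [hA', hB']
    ext x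
    simp only [Finset.mem_symmDiff, Finset.mem_union, Finset.mem_inter, Finset.mem_sdiff]
    exact rot_prop3 (fun h => (hUm x).1 (hβm x h))
  · rw [← hβW, hB', List.map_inj_left]
    intro x hx
    have h1 := (hUm x).1 hx
    rw [decide_eq_decide]
    simp only [Finset.mem_union, Finset.mem_inter]
    tauto

theorem rot : SRot := by
  intro L N
  classical
  by_cases hfin : (symSet L N).Finite
  · have hex : ∀ r : List (ℕ × ℕ), ∃ p : List (ℕ × ℕ) × ℕ, r ∈ symSet L N →
        (p.1 ∈ domSet L N ∧ p.2 < 2 * L + 1 ∧ RotRel r p.1 p.2) := by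
      intro r
      by_cases hr : r ∈ symSet L N
      · obtain ⟨r', k, h1, h2, h3⟩ := rot_ex hr
        exact ⟨(r', k), fun _ => ⟨h1, h2, h3⟩⟩
      · exact ⟨([], 0), fun h => absurd h hr⟩
    choose f hf using hex
    have hdfin : (domSet L N).Finite := hfin.subset (fun r hr => hr.1)
    have hsub : (symSet L N).ncard ≤ ((domSet L N) ×ˢ (Set.Iio (2 * L + 1))).ncard := by
      refine Set.ncard_le_ncard_of_injOn f ?_ ?_ (hdfin.prod (Set.finite_Iio _))
      · intro r hr
        exact ⟨(hf r hr).1, (hf r hr).2.1⟩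
      · intro r₁ h₁ r₂ h₂ he
        have e1 := (hf r₁ h₁).2.2
        have e2 := (hf r₂ h₂).2.2
        rw [← he] at e2
        exact rot_inj h₁.1 h₂.1 e1 e2
    rw [Set.ncard_prod] at hsub
    have h3 : (Set.Iio (2 * L + 1)).ncard = 2 * L + 1 := by
      rw [← Finset.coe_Iio, Set.ncard_coe_finset]
      simp
    rw [h3, mul_comm] at hsub
    exact hsub
  · rw [Set.Infinite.ncard hfin]
    exact Nat.zero_le _

end Pool.Agent.H95.FX
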