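import Pool.Agent.H95.FX.Stm

set_option autoImplicit false

/-!
# Few symbols of length at most one (MP_c916f9_co)
-/

namespace Pool.Agent.H95.FX

/-- the symbols of length at most one and mass `N` -/
def shortSet (N : ℕ) : Finset (List (ℕ × ℕ)) :=
  insert [] ((Finset.range N).image (fun a => [(a, N - 1 - a)]))

lemma shortSet_card (N : ℕ) : (shortSet N).card ≤ N + 1 := by
  unfold shortSet
  refine (Finset.card_insert_le _ _).trans ?_
  have h : ((Finset.range N).image (fun a => [(a, N - 1 - a)])).card ≤ N := by
    refine Finset.card_image_le.trans ?_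
    simp
  omega

theorem short (h : SFin) : SShort := by
  intro L N
  have hsub : domSet L N ⊆ domSet2 L N ∪ ((shortSet N : Finset (List (ℕ × ℕ))) :
      Set (List (ℕ × ℕ))) := by
    intro r hr
    by_cases h2 : 2 ≤ r.length
    · exact Or.inl ⟨hr, h2⟩
    · right
      rw [Finset.mem_coe]
      unfold shortSet
      match r, hr, h2 with
      | [], _, _ => exact Finset.mem_insert_self _ _
      | [x], hr, _ =>
        apply Finset.mem_insert_of_mem
        rw [Finset.mem_image]
        have hm : mass [x] = N := hr.1.2.1
        have hm' : x.1 + x.2 + 1 = N := by simpa [mass] using hm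
        refine ⟨x.1, Finset.mem_range.mpr (by omega), ?_⟩
        have : N - 1 - x.1 = x.2 := by omega
        rw [this]
      | x :: y :: t, _, h2 =>
        exact absurd (by simp) h2
  have hfin : (domSet2 L N ∪ ((shortSet N : Finset (List (ℕ × ℕ))) :
      Set (List (ℕ × ℕ)))).Finite := by
    refine Set.Finite.union ?_ (Finset.finite_toSet _)
    exact (h L N).subset (fun r hr => hr.1.1)
  refine (Set.ncard_le_ncard hsub hfin).trans ?_
  refine (Set.ncard_union_le _ _).trans ?_
  have := shortSet_card N
  rw [Set.ncard_coe_finset]
  omega

end Pool.Agent.H95.FX
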