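import Pool.Agent.H95.FX.Stm

/-!
# Frobenius symbols: length, sum, order, injectivity, surjectivity, finiteness
-/

namespace Pool.Agent.H95.FX

theorem sym_len : ∀ (r : List (ℕ × ℕ)) (x : ℕ × ℕ), SD (x :: r) →
    (fro r).length ≤ x.2 ∧ (fro (x :: r)).length = x.2 + 1 := by
  intro r
  induction r with
  | nil =>
    intro x _
    refine ⟨Nat.zero_le _, ?_⟩
    simp [fro]
  | cons y r ih =>
    intro x h
    have h1 : SD (y :: r) := (List.pairwise_cons.1 h).2
    have h2 := (List.pairwise_cons.1 h).1 y List.mem_cons_self
    have h3 := (ih y h1).2
    have h4 : (fro (y :: r)).length ≤ x.2 := by omega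
    refine ⟨h4, ?_⟩
    have e : fro (x :: y :: r) = (x.1 + 1) :: ((fro (y :: r)).map (· + 1) ++
      List.replicate (x.2 - (fro (y :: r)).length) 1) := rfl
    rw [e, List.length_cons, List.length_append, List.length_map, List.length_replicate]
    omega

theorem len : SLen := fun x r h => (sym_len r x h).2

theorem fsum : SSum := by
  intro r
  induction r with
  | nil => intro _; rfl
  | cons x r ih =>
    intro h
    have h1 : SD r := (List.pairwise_cons.1 h).2
    have h2 := (sym_len r x h).1
    have e : fro (x :: r) = (x.1 + 1) :: ((fro r).map (· + 1) ++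
      List.replicate (x.2 - (fro r).length) 1) := rfl
    have e2 : mass (x :: r) = (x.1 + x.2 + 1) + mass r := by
      simp [mass]
    have e3 : ((fro r).map (· + 1)).sum = (fro r).sum + (fro r).length := by
      rw [List.sum_map_add]
      simp
    rw [e, e2, List.sum_cons, List.sum_append, e3, List.sum_replicate, ih h1]
    simp only [smul_eq_mul, mul_one]
    omega

theorem fpos : SPos := by
  intro r
  induction r with
  | nil => intro y hy; exact absurd hy List.not_mem_nil
  | cons x r ih =>
    intro y hy
    have e : fro (x :: r) = (x.1 + 1) :: ((fro r).map (· + 1) ++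
      List.replicate (x.2 - (fro r).length) 1) := rfl
    rw [e, List.mem_cons, List.mem_append, List.mem_map, List.mem_replicate] at hy
    rcases hy with h | ⟨z, _, h⟩ | ⟨_, h⟩ <;> omega

theorem sym_head : ∀ (r : List (ℕ × ℕ)) (x : ℕ × ℕ), SD (x :: r) →
    (∀ z ∈ fro r, z ≤ x.1) ∧ ∀ z ∈ fro (x :: r), z ≤ x.1 + 1 := by
  intro r
  induction r with
  | nil =>
    intro x _
    refine ⟨fun z hz => absurd hz List.not_mem_nil, fun z hz => ?_⟩
    simp only [fro, List.map_nil, List.nil_append, List.length_nil, Nat.sub_zero,
      List.mem_cons, List.mem_replicate] at hz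
    rcases hz with h | ⟨_, h⟩ <;> omega
  | cons y r ih =>
    intro x h
    have h1 : SD (y :: r) := (List.pairwise_cons.1 h).2
    have h2 := (List.pairwise_cons.1 h).1 y List.mem_cons_self
    have h3 := (ih y h1).2
    have h4 : ∀ z ∈ fro (y :: r), z ≤ x.1 := fun z hz => by
      have := h3 z hz
      omega
    refine ⟨h4, fun z hz => ?_⟩
    have e : fro (x :: y :: r) = (x.1 + 1) :: ((fro (y :: r)).map (· + 1) ++
      List.replicate (x.2 - (fro (y :: r)).length) 1) := rfl
    rw [e, List.mem_cons, List.mem_append, List.mem_map, List.mem_replicate] at hz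
    rcases hz with h | ⟨w, hw, h⟩ | ⟨_, h⟩
    · omega
    · have := h4 w hw
      omega
    · omega

theorem fsort : SSort := by
  intro r
  induction r with
  | nil => intro _; exact List.Pairwise.nil
  | cons x r ih =>
    intro h
    have h1 : SD r := (List.pairwise_cons.1 h).2
    have h2 := (sym_head r x h).1
    have e : fro (x :: r) = (x.1 + 1) :: ((fro r).map (· + 1) ++
      List.replicate (x.2 - (fro r).length) 1) := rfl
    rw [e, List.pairwise_cons, List.pairwise_append, List.pairwise_map]
    refine ⟨fun z hz => ?_, (ih h1).imp fun {a b} hab => by omega, ?_, fun a ha b hb => ?_⟩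
    · rw [List.mem_append, List.mem_map, List.mem_replicate] at hz
      rcases hz with ⟨w, hw, h⟩ | ⟨_, h⟩
      · have := h2 w hw
        omega
      · omega
    · exact List.pairwise_replicate.2 (Or.inr le_rfl)
    · rw [List.mem_map] at ha
      obtain ⟨w, _, rfl⟩ := ha
      rw [List.mem_replicate] at hb
      omega

theorem sym_filter (l : List ℕ) (hl : ∀ y ∈ l, 1 ≤ y) (k : ℕ) :
    (l.map (· + 1) ++ List.replicate k 1).filter (fun a => decide (2 ≤ a)) = l.map (· + 1) := by
  rw [List.filter_append]
  have h1 : (l.map (· + 1)).filter (fun a => decide (2 ≤ a)) = l.map (· + 1) := by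
    rw [List.filter_eq_self]
    intro a ha
    rw [List.mem_map] at ha
    obtain ⟨w, hw, rfl⟩ := ha
    have := hl w hw
    simp only [decide_eq_true_eq]
    omega
  have h2 : (List.replicate k 1).filter (fun a => decide (2 ≤ a)) = [] := by
    rw [List.filter_eq_nil_iff]
    intro a ha
    rw [List.mem_replicate] at ha
    rw [ha.2]
    simp
  rw [h1, h2, List.append_nil]

theorem finj : SInj := by
  intro r
  induction r with
  | nil =>
    intro r' _ _ h
    cases r' with
    | nil => rfl
    | cons x r' => exact absurd h.symm (List.cons_ne_nil _ _)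
  | cons x r ih =>
    intro r' h h' he
    cases r' with
    | nil => exact absurd he (List.cons_ne_nil _ _)
    | cons x' r' =>
      have l1 := len x r h
      have l2 := len x' r' h'
      rw [he, l2] at l1
      have e : fro (x :: r) = (x.1 + 1) :: ((fro r).map (· + 1) ++
        List.replicate (x.2 - (fro r).length) 1) := rfl
      have e' : fro (x' :: r') = (x'.1 + 1) :: ((fro r').map (· + 1) ++
        List.replicate (x'.2 - (fro r').length) 1) := rfl
      rw [e, e', List.cons.injEq] at he
      have hx : x = x' := Prod.ext (by omega) (by omega)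
      have h3 := congrArg (List.filter (fun a => decide (2 ≤ a))) he.2
      rw [sym_filter _ (fpos r), sym_filter _ (fpos r')] at h3
      have h4 : fro r = fro r' := by
        refine List.map_injective_iff.2 (fun a b hab => ?_) h3
        simpa using hab
      rw [hx, ih r' (List.pairwise_cons.1 h).2 (List.pairwise_cons.1 h').2 h4]

theorem sym_inner : ∀ l : List ℕ, l.Pairwise (· ≥ ·) → (∀ x ∈ l, 1 ≤ x) →
    ((l.map (· - 1)).filter (fun a => decide (1 ≤ a))).map (· + 1) ++
      List.replicate (l.length - ((l.map (· - 1)).filter (fun a => decide (1 ≤ a))).length) 1 = l := by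
  intro l
  induction l with
  | nil => intro _ _; rfl
  | cons a l ih =>
    intro h hp
    have h1 := (List.pairwise_cons.1 h)
    have ha := hp a List.mem_cons_self
    have ih' := ih h1.2 fun x hx => hp x (List.mem_cons_of_mem _ hx)
    rcases Nat.lt_or_ge a 2 with h2 | h2
    · have ha1 : a = 1 := by omega
      have h3 : ∀ x ∈ l, x = 1 := fun x hx => by
        have := h1.1 x hx
        have := hp x (List.mem_cons_of_mem _ hx)
        omega
      have h4 : ((a :: l).map (· - 1)).filter (fun a => decide (1 ≤ a)) = [] := by
        rw [List.filter_eq_nil_iff]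
        intro b hb
        rw [List.mem_map] at hb
        obtain ⟨w, hw, rfl⟩ := hb
        rw [List.mem_cons] at hw
        have : w = 1 := hw.elim (fun h => h.trans ha1) (h3 w)
        rw [this]
        simp
      rw [h4, List.map_nil, List.nil_append, List.length_nil, Nat.sub_zero]
      refine (List.eq_replicate_iff.2 ⟨rfl, fun b hb => ?_⟩).symm
      rw [List.mem_cons] at hb
      exact hb.elim (fun h => h.trans ha1) (h3 b)
    · rw [List.map_cons, List.filter_cons_of_pos (by simp only [decide_eq_true_eq]; omega),
        List.map_cons, List.length_cons, List.length_cons, List.cons_append,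
        Nat.add_sub_add_right, ih']
      congr 1
      omega

theorem fro_surj : SFro := by
  have key : ∀ n : ℕ, ∀ l : List ℕ, l.length ≤ n → l.Pairwise (· ≥ ·) → (∀ x ∈ l, 1 ≤ x) →
      ∃ r : List (ℕ × ℕ), SD r ∧ fro r = l := by
    intro n
    induction n with
    | zero =>
      intro l hl _ _
      refine ⟨[], List.Pairwise.nil, ?_⟩
      have := List.eq_nil_of_length_eq_zero (Nat.le_zero.1 hl)
      rw [this]
      rfl
    | succ n ih =>
      intro l hl hs hp
      cases l with
      | nil => exact ⟨[], List.Pairwise.nil, rfl⟩
      | cons a l =>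
        have h1 := List.pairwise_cons.1 hs
        have ha := hp a List.mem_cons_self
        set m := (l.map (· - 1)).filter (fun a => decide (1 ≤ a)) with hm
        have hml : m.length ≤ l.length := by
          rw [hm]
          refine (List.length_filter_le _ _).trans ?_
          rw [List.length_map]
        have hms : m.Pairwise (· ≥ ·) := by
          rw [hm]
          refine List.Pairwise.filter _ ?_
          rw [List.pairwise_map]
          exact h1.2.imp fun {a b} hab => by omega
        have hmm : ∀ x ∈ m, 1 ≤ x ∧ x + 1 ≤ a := by
          intro x hx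
          rw [hm, List.mem_filter, List.mem_map] at hx
          obtain ⟨⟨w, hw, hwx⟩, h2⟩ := hx
          rw [decide_eq_true_eq] at h2
          have := h1.1 w hw
          omega
        rw [List.length_cons] at hl
        obtain ⟨r, hr, hrm⟩ := ih m (by omega) hms fun x hx => (hmm x hx).1
        refine ⟨(a - 1, l.length) :: r, ?_, ?_⟩
        · refine List.pairwise_cons.2 ⟨fun y hy => ?_, hr⟩
          cases r with
          | nil => exact absurd hy List.not_mem_nil
          | cons y₀ r =>
            have l0 := len y₀ r hr
            rw [hrm] at l0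
            have h0 : y₀.1 + 1 ∈ m := by
              rw [← hrm]
              exact List.mem_cons_self
            have h3 := (hmm _ h0).2
            rw [List.mem_cons] at hy
            show y.1 < a - 1 ∧ y.2 < l.length
            rcases hy with rfl | hy
            · omega
            · have := (List.pairwise_cons.1 hr).1 y hy
              omega
        · have e : fro ((a - 1, l.length) :: r) = (a - 1 + 1) :: ((fro r).map (· + 1) ++
            List.replicate (l.length - (fro r).length) 1) := rfl
          rw [e, hrm, sym_inner l h1.2 fun x hx => hp x (List.mem_cons_of_mem _ hx)]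
          congr 1
          omega
  exact fun l hs hp => key l.length l le_rfl hs hp

theorem ffin : SFin := by
  intro L N
  have hlen : ∀ r : List (ℕ × ℕ), r.length ≤ mass r := by
    intro r
    induction r with
    | nil => exact Nat.zero_le _
    | cons x r ih =>
      have e2 : mass (x :: r) = (x.1 + x.2 + 1) + mass r := by
        simp [mass]
      rw [e2, List.length_cons]
      omega
  have hfin := (List.finite_length_le (Fin L × Fin L) N).image
    (fun l : List (Fin L × Fin L) => l.map fun p => ((p.1 : ℕ), (p.2 : ℕ)))
  refine hfin.subset ?_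
  rintro r ⟨_, h2, h3⟩
  refine ⟨r.attach.map fun x => (⟨x.1.1, (h3 x.1 x.2).1⟩, ⟨x.1.2, (h3 x.1 x.2).2⟩), ?_, ?_⟩
  · show (List.map _ r.attach).length ≤ N
    rw [List.length_map, List.length_attach, ← h2]
    exact hlen r
  · show List.map _ (List.map _ r.attach) = r
    rw [List.map_map]
    exact List.attach_map_subtype_val r

end Pool.Agent.H95.FX
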